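import Pool.Agent.Lib.MP_452a87_nt.SpecG

/-!
# Part G: `S_GBk`, bad fields have bad tuples
-/

set_option autoImplicit false

namespace Pool.Agent.SMQ

open IntermediateField

namespace GBkAux

theorem sd_single {j : ℕ} (A : Finset (Fin j)) :
    sd A (fun i : Fin j => ({i} : Finset (Fin j))) = A := by
  ext i
  rw [sd, Finset.mem_filter]
  by_cases hi : i ∈ A
  · have h5 : A.filter (fun i' => i ∈ ({i'} : Finset (Fin j))) = {i} := by
      ext l
      rw [Finset.mem_filter, Finset.mem_singleton, Finset.mem_singleton]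
      constructor
      · rintro ⟨_, h⟩
        exact h.symm
      · rintro rfl
        exact ⟨hi, rfl⟩
    rw [h5, Finset.card_singleton]
    exact ⟨fun _ => hi, fun _ => ⟨Finset.mem_univ i, odd_one⟩⟩
  · have h5 : A.filter (fun i' => i ∈ ({i'} : Finset (Fin j))) = ∅ := by
      rw [Finset.filter_eq_empty_iff]
      intro l hl h
      rw [Finset.mem_singleton] at h
      exact hi (h ▸ hl)
    rw [h5, Finset.card_empty]
    exact ⟨fun h => absurd h.2 (by decide), fun h => absurd h hi⟩

theorem fre_single (j : ℕ) : Fre (fun i : Fin j => ({i} : Finset (Fin j))) := by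
  intro A hA h
  rw [sd_single] at h
  exact hA.ne_empty h

theorem KX_single {j : ℕ} (r : Fin j → ℂ) :
    KX r (fun i : Fin j => ({i} : Finset (Fin j))) = adjoin ℚ (Set.range r) := by
  rw [KX]
  congr 1
  ext z
  constructor
  · rintro ⟨i, rfl⟩
    exact ⟨i, by simp [rho]⟩
  · rintro ⟨i, rfl⟩
    exact ⟨i, by simp [rho]⟩

theorem rho_rt {j : ℕ} (s : Fin j → Bool) (b : Fin j → ℕ) (A : Finset (Fin j)) :
    rho (fun i => rt (s i) (b i)) A = (∏ i ∈ A, (if s i then Complex.I else 1)) *
      ((Real.sqrt ((∏ i ∈ A, b i : ℕ) : ℝ) : ℝ) : ℂ) := by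
  classical
  induction A using Finset.induction_on with
  | empty => simp [rho]
  | insert i A hi ih =>
    have h1 : rho (fun i => rt (s i) (b i)) (insert i A) =
        rt (s i) (b i) * rho (fun i => rt (s i) (b i)) A := by
      unfold rho
      rw [Finset.prod_insert hi]
    rw [h1, ih, Finset.prod_insert hi, Finset.prod_insert hi, Nat.cast_mul,
      Real.sqrt_mul (Nat.cast_nonneg _)]
    unfold rt
    push_cast
    ring

theorem ths_vn {j : ℕ} (s : Fin j → Bool) (b : Fin j → ℕ) (L : ℂ) (A : Finset (Fin j)) :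
    ths (fun i => rt (s i) (b i)) L (sd A (fun i : Fin j => ({i} : Finset (Fin j)))) =
      vn (lm L s) b A := by
  rw [sd_single]
  unfold ths vn lm
  rw [rho_rt]
  congr 1
  ring

end GBkAux

open GBkAux

theorem pGBk (h1 : S_GRt) (h2 : S_FG) : S_GBk := by
  intro j s b L hb hdeg halg hbad
  by_contra hn
  have hR := h1 j s b hb hdeg
  have hT : ¬ BadT (fun i => rt (s i) (b i)) L (fun i : Fin j => ({i} : Finset (Fin j))) := by
    intro h
    apply hn
    unfold BadN
    unfold BadT at h
    simp only [ths_vn] at h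
    exact h
  obtain ⟨β, hβ, hna⟩ := hbad
  refine hna (h2 j j _ _ L _ hR halg (fre_single j) hT β ?_)
  rw [KX_single]
  exact hβ

end Pool.Agent.SMQ
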