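import Pool.Agent.Lib.MP_452a87_nt.SpecG

/-!
# 452a87 G/GCu: cubes in dense sets of words with nonempty letters
-/

set_option autoImplicit false

namespace Pool.Agent.SMQ

namespace GCuAux

open Finset Pool.Agent.Lib.MP_9f2731_nt.GP.Dhj

/-- The letters. -/
abbrev Lt (j : ℕ) : Type := {A : Finset (Fin j) // A.Nonempty}

theorem card_Lt (j : ℕ) : Fintype.card (Lt j) = 2 ^ j - 1 := by
  classical
  have h1 : Fintype.card (Lt j) = Fintype.card {A : Finset (Fin j) // A ≠ ∅} :=
    Fintype.card_congr (Equiv.subtypeEquivRight fun A => Finset.nonempty_iff_ne_empty)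
  rw [h1, Fintype.card_subtype_compl, Fintype.card_finset, Fintype.card_fin,
    Fintype.card_subtype_eq]

/-- The tuple of a word. -/
noncomputable def tup {j m : ℕ} (e : Lt j ≃ Fin (2 ^ j - 1)) (y : Fin m → Fin (2 ^ j - 1)) :
    Fin j → Finset (Fin m) := fun i => univ.filter (fun l => i ∈ (e.symm (y l)).1)

theorem mem_tup {j m : ℕ} (e : Lt j ≃ Fin (2 ^ j - 1)) (y : Fin m → Fin (2 ^ j - 1)) (i : Fin j)
    (l : Fin m) : l ∈ tup e y i ↔ i ∈ (e.symm (y l)).1 := by
  unfold tup
  simp

theorem tup_inj {j m : ℕ} (e : Lt j ≃ Fin (2 ^ j - 1)) :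
    Function.Injective (tup (m := m) e) := by
  intro y y' h
  funext l
  apply e.symm.injective
  apply Subtype.ext
  ext i
  rw [← mem_tup, ← mem_tup, h]

theorem tup_surj {j m : ℕ} (e : Lt j ≃ Fin (2 ^ j - 1)) (x : Fin j → Finset (Fin m))
    (hx : ∀ l, ∃ i, l ∈ x i) : ∃ y, tup e y = x := by
  classical
  have hne : ∀ l, (univ.filter (fun i => l ∈ x i)).Nonempty := by
    intro l
    obtain ⟨i, hi⟩ := hx l
    exact ⟨i, by simp [hi]⟩
  refine ⟨fun l => e ⟨_, hne l⟩, ?_⟩
  funext i
  ext l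
  rw [mem_tup, Equiv.symm_apply_apply]
  simp

theorem pr_tup {j m : ℕ} (hj : 2 ≤ j) (e : Lt j ≃ Fin (2 ^ j - 1))
    (𝒜 : Set (Fin j → Finset (Fin m))) (h𝒜 : ∀ x ∈ 𝒜, ∀ l, ∃ i, l ∈ x i) :
    pr (fun y : Fin m → Fin (2 ^ j - 1) => tup e y ∈ 𝒜) = (𝒜.ncard : ℝ) / (2 ^ j - 1) ^ m := by
  classical
  unfold pr mn
  have h2 : 1 ≤ 2 ^ j := Nat.one_le_two_pow
  have h1 : (Fintype.card (Fin m → Fin (2 ^ j - 1)) : ℝ) = (2 ^ j - 1) ^ m := by
    rw [Fintype.card_fun, Fintype.card_fin, Fintype.card_fin, Nat.cast_pow, Nat.cast_sub h2]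
    push_cast
    rfl
  rw [h1]
  congr 1
  rw [Finset.sum_boole]
  congr 1
  have h3 : 𝒜 = (tup e) '' ((univ.filter fun y => tup e y ∈ 𝒜 : Finset _) :
      Set (Fin m → Fin (2 ^ j - 1))) := by
    ext x
    constructor
    · intro hx
      obtain ⟨y, rfl⟩ := tup_surj e x (h𝒜 x hx)
      exact ⟨y, by simpa using hx, rfl⟩
    · rintro ⟨y, hy, rfl⟩
      simpa using hy
  conv_rhs => rw [h3]
  rw [Set.ncard_image_of_injective _ (tup_inj e), Set.ncard_coe_finset]

end GCuAux

open GCuAux Finset Pool.Agent.Lib.MP_9f2731_nt.GP.Dhj in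
theorem pGCu (h1 : S_HJk) : S_GCu := by
  classical
  intro j k δ hj hδ
  obtain ⟨n, hn⟩ := h1 (2 ^ j - 1) (j * k) δ hδ
  have e : Lt j ≃ Fin (2 ^ j - 1) := Fintype.equivFinOfCardEq (card_Lt j)
  let g : Fin j × Fin k ≃ Fin (j * k) := finProdFinEquiv
  have hnx : ∀ i : Fin j, ∃ i' : Fin j, i' ≠ i := by
    intro i
    have : Nontrivial (Fin j) := Fin.nontrivial_iff_two_le.2 hj
    exact exists_ne i
  choose nx hnx using hnx
  refine ⟨n, fun m hm 𝒜 hfull h𝒜 => ?_⟩
  have hpos : (0 : ℝ) < (2 ^ j - 1) ^ m := by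
    have : (1 : ℝ) < 2 ^ j := one_lt_pow₀ (by norm_num) (by omega)
    apply pow_pos
    linarith
  have hpr : δ ≤ pr (fun y : Fin m → Fin (2 ^ j - 1) => tup e y ∈ 𝒜) := by
    rw [pr_tup hj e 𝒜 hfull, le_div_iff₀ hpos]
    exact h𝒜
  obtain ⟨v, hv, hall⟩ := hn (Fin m) (by rw [Fintype.card_fin]; exact hm) _ hpr
  refine ⟨fun i t => univ.filter (fun l => v l = Sum.inr (g (i, t))),
    fun i => univ.filter (fun l => (∃ c, v l = Sum.inl c ∧ i ∈ (e.symm c).1) ∨
      ∃ i1 t, v l = Sum.inr (g (i1, t)) ∧ nx i1 = i), ?_, ?_, ?_, ?_⟩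
  · intro i t
    obtain ⟨l, hl⟩ := hv (g (i, t))
    exact ⟨l, by simp [hl]⟩
  · intro i t i' t' hne
    rw [Finset.disjoint_left]
    intro l hl hl'
    have a1 := (mem_filter.1 hl).2
    have a2 := (mem_filter.1 hl').2
    rw [a1] at a2
    exact hne (g.injective (Sum.inr.inj a2))
  · intro i t
    rw [Finset.disjoint_left]
    intro l hl hl'
    have a2 := (mem_filter.1 hl').2
    rcases (mem_filter.1 hl).2 with ⟨c, hc, _⟩ | ⟨i1, t1, hc, hi1⟩
    · rw [hc] at a2
      exact absurd a2 (by simp)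
    · rw [hc] at a2
      have a3 := g.injective (Sum.inr.inj a2)
      rw [Prod.mk.injEq] at a3
      rw [a3.1] at hi1
      exact hnx i hi1
  · intro W
    have hne : ∀ p : Fin j × Fin k,
        (insert (nx p.1) (if p.2 ∈ W p.1 then {p.1} else ∅) : Finset (Fin j)).Nonempty :=
      fun p => ⟨nx p.1, mem_insert_self _ _⟩
    let y : Fin (j * k) → Fin (2 ^ j - 1) := fun q => e ⟨_, hne (g.symm q)⟩
    have h2 := hall y
    have h3 : tup e (sub v y) = fun i =>
        univ.filter (fun l => (∃ c, v l = Sum.inl c ∧ i ∈ (e.symm c).1) ∨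
          ∃ i1 t, v l = Sum.inr (g (i1, t)) ∧ nx i1 = i) ∪
          (W i).biUnion (fun t => univ.filter (fun l => v l = Sum.inr (g (i, t)))) := by
      funext i
      ext l
      rw [mem_tup, mem_union, mem_biUnion]
      unfold sub
      rcases hwl : v l with c | q
      · rw [mem_filter]
        constructor
        · intro h
          exact Or.inl ⟨mem_univ _, Or.inl ⟨c, hwl, h⟩⟩
        · rintro (⟨_, ⟨c', hc', h⟩ | ⟨i1, t1, hc', h⟩⟩ | ⟨t, _, ht⟩)
          · rw [hwl] at hc'
            rw [Sum.inl.inj hc']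
            exact h
          · rw [hwl] at hc'
            exact absurd hc' (by simp)
          · have := (mem_filter.1 ht).2
            rw [hwl] at this
            exact absurd this (by simp)
      · obtain ⟨⟨i1, t1⟩, rfl⟩ := g.surjective q
        have hy : (e.symm (y (g (i1, t1)))).1 =
            insert (nx i1) (if t1 ∈ W i1 then {i1} else ∅) := by
          simp only [y, Equiv.symm_apply_apply]
        rw [Sum.elim_inr, hy, mem_insert, mem_filter]
        constructor
        · rintro (h | h)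
          · exact Or.inl ⟨mem_univ _, Or.inr ⟨i1, t1, hwl, h.symm⟩⟩
          · by_cases ht : t1 ∈ W i1
            · rw [if_pos ht, mem_singleton] at h
              subst h
              exact Or.inr ⟨t1, ht, by simp [hwl]⟩
            · rw [if_neg ht] at h
              exact absurd h (notMem_empty _)
        · rintro (⟨_, ⟨c', hc', _⟩ | ⟨i2, t2, hc', h⟩⟩ | ⟨t', ht', ht⟩)
          · rw [hwl] at hc'
            exact absurd hc' (by simp)
          · rw [hwl] at hc'
            have h5 := g.injective (Sum.inr.inj hc')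
            rw [Prod.mk.injEq] at h5
            left
            rw [h5.1, h]
          · have h5 := (mem_filter.1 ht).2
            rw [hwl] at h5
            have h6 := g.injective (Sum.inr.inj h5)
            rw [Prod.mk.injEq] at h6
            right
            obtain ⟨h7, h8⟩ := h6
            subst h7
            subst h8
            rw [if_pos ht', mem_singleton]
    rw [h3] at h2
    exact h2

end Pool.Agent.SMQ
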