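import Pool.Agent.Lib.MP_452a87_nt.SpecG

/-!
# MP_452a87_nt, G: the lower bound of the discriminant
-/

set_option autoImplicit false

namespace Pool.Agent.SMQ

namespace GDlAux

theorem lcm_ne_zero {j : ℕ} (a : Fin j → ℕ) (ha : ∀ i, Squarefree (a i)) :
    Finset.univ.lcm a ≠ 0 := by
  intro h
  rw [Finset.lcm_eq_zero_iff] at h
  obtain ⟨i, -, hi⟩ := h
  exact (ha i).ne_zero hi

theorem lcm_sqf {j : ℕ} (a : Fin j → ℕ) (ha : ∀ i, Squarefree (a i)) :
    Squarefree (Finset.univ.lcm a) := by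
  have h0 := lcm_ne_zero a ha
  have h1 : Finset.univ.lcm a ∣ UniqueFactorizationMonoid.radical (Finset.univ.lcm a) := by
    refine Finset.lcm_dvd fun i _ => ?_
    exact (UniqueFactorizationMonoid.dvd_radical_iff (ha i).isRadical h0).2
      (Finset.dvd_lcm (Finset.mem_univ i))
  exact UniqueFactorizationMonoid.squarefree_radical.squarefree_of_dvd h1

theorem exists_dvd {j : ℕ} (a : Fin j → ℕ) {p : ℕ} (hp : p.Prime) (h : p ∣ Finset.univ.lcm a) :
    ∃ i, p ∣ a i := by
  have h1 : Finset.univ.lcm a ∣ ∏ i, a i :=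
    Finset.lcm_dvd fun i _ => Finset.dvd_prod_of_mem a (Finset.mem_univ i)
  obtain ⟨i, -, hi⟩ := hp.prime.exists_mem_finset_dvd (h.trans h1)
  exact ⟨i, hi⟩

theorem rt_sq (s : Bool) (a : ℕ) : rt s a ^ 2 = ((if s then -(a : ℤ) else (a : ℤ) : ℤ) : ℂ) := by
  have h1 : ((Real.sqrt (a : ℝ) : ℝ) : ℂ) ^ 2 = (a : ℂ) := by
    rw [← Complex.ofReal_pow, Real.sq_sqrt (Nat.cast_nonneg a)]
    simp
  unfold rt
  rw [mul_pow, h1]
  cases s
  · simp
  · simp

theorem not_sq {p : ℕ} (hp : p.Prime) {d : ℤ} (hpd : (p : ℤ) ∣ d) (hpd2 : ¬ (p : ℤ) ^ 2 ∣ d)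
    (q : ℚ) : q ^ 2 ≠ (d : ℚ) := by
  intro hq
  have hpp : Prime (p : ℤ) := Nat.prime_iff_prime_int.1 hp
  have hsq : IsSquare d := by
    rw [← Rat.isSquare_intCast_iff]
    exact ⟨q, by rw [← hq, sq]⟩
  obtain ⟨t, ht⟩ := hsq
  apply hpd2
  have hpt : (p : ℤ) ∣ t := by
    rw [ht] at hpd
    rcases hpp.dvd_or_dvd hpd with h | h <;> exact h
  rw [ht, sq]
  exact mul_dvd_mul hpt hpt

theorem int_of {z : ℂ} {d : ℤ} (hz : z ^ 2 = (d : ℂ)) : IsIntegral ℚ z := by
  refine ⟨Polynomial.X ^ 2 - Polynomial.C (d : ℚ), Polynomial.monic_X_pow_sub_C _ two_ne_zero, ?_⟩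
  rw [Polynomial.eval₂_sub, Polynomial.eval₂_pow, Polynomial.eval₂_X, Polynomial.eval₂_C, hz]
  simp

theorem deg_two {z : ℂ} {d : ℤ} (hz : z ^ 2 = (d : ℂ)) (hnsq : ∀ q : ℚ, q ^ 2 ≠ (d : ℚ)) :
    Module.finrank ℚ (IntermediateField.adjoin ℚ {z}) = 2 := by
  have hzi := int_of hz
  have hmin : minpoly ℚ z = Polynomial.X ^ 2 - Polynomial.C (d : ℚ) := by
    symm
    apply minpoly.eq_of_irreducible_of_monic
    · rw [X_pow_sub_C_irreducible_iff_of_prime Nat.prime_two]
      exact hnsq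
    · rw [map_sub, map_pow, Polynomial.aeval_X, Polynomial.aeval_C, hz]
      simp
    · exact Polynomial.monic_X_pow_sub_C _ two_ne_zero
  rw [IntermediateField.adjoin.finrank hzi, hmin, Polynomial.natDegree_X_pow_sub_C]

end GDlAux

open NumberField GDlAux in
theorem pGDl (hGDq : S_GDq) (hGDt : S_GDt) : S_GDl := by
  intro j s e a K _ he ha hK hdeg
  have hsq := lcm_sqf a fun i => (ha i).1
  have hn0 := lcm_ne_zero a fun i => (ha i).1
  have key : ∀ p : ℕ, p.Prime → p ∣ Finset.univ.lcm a → p ^ (2 ^ (j - 1)) ∣ (discr K).natAbs := by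
    intro p hp hpn
    obtain ⟨i, hi⟩ := exists_dvd a hp hpn
    have hj : j ≠ 0 := by
      rintro rfl
      exact i.elim0
    have hp2 : p ≠ 2 := by
      rintro rfl
      have h1 := (ha i).2
      rw [← Nat.not_even_iff_odd] at h1
      exact h1 (even_iff_two_dvd.2 hi)
    have hpe : Nat.Coprime p (e i) := by
      rcases he i with h | h
      · rw [h]
        exact Nat.coprime_one_right p
      · rw [h]
        exact (Nat.coprime_primes hp Nat.prime_two).2 hp2
    have hpp : p ∣ e i * a i := dvd_mul_of_dvd_right hi _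
    have hpp2 : ¬ p ^ 2 ∣ e i * a i := by
      intro h
      have h1 : p ^ 2 ∣ a i := (Nat.Coprime.pow_left 2 hpe).dvd_of_dvd_mul_left h
      rw [sq] at h1
      exact hp.one_lt.ne' (Nat.isUnit_iff.1 ((ha i).1 p h1))
    set d : ℤ := if s i then -((e i * a i : ℕ) : ℤ) else ((e i * a i : ℕ) : ℤ) with hd
    have hz := rt_sq (s i) (e i * a i)
    rw [← hd] at hz
    have hpd : (p : ℤ) ∣ d := by
      rw [hd]
      have h1 : (p : ℤ) ∣ ((e i * a i : ℕ) : ℤ) := Int.natCast_dvd_natCast.2 hpp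
      split_ifs
      · exact (dvd_neg).2 h1
      · exact h1
    have hpd2 : ¬ (p : ℤ) ^ 2 ∣ d := by
      rw [hd]
      intro h
      have h1 : ((p ^ 2 : ℕ) : ℤ) ∣ ((e i * a i : ℕ) : ℤ) := by
        rw [Nat.cast_pow]
        split_ifs at h
        · exact (dvd_neg).1 h
        · exact h
      exact hpp2 (Int.natCast_dvd_natCast.1 h1)
    set k := IntermediateField.adjoin ℚ {rt (s i) (e i * a i)} with hk
    have hfd : FiniteDimensional ℚ k := IntermediateField.adjoin.finiteDimensional (int_of hz)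
    have hnf : NumberField k := { to_charZero := inferInstance, to_finiteDimensional := hfd }
    have h2 := deg_two hz (not_sq hp hpd hpd2)
    have hle : k ≤ K := by
      rw [hk, hK]
      apply IntermediateField.adjoin.mono
      rw [Set.singleton_subset_iff]
      exact ⟨i, rfl⟩
    have h3 := hGDq k _ d p hz hk hp hp2 hpd hpd2
    have h4 := hGDt k K (2 ^ (j - 1)) hle (by
      rw [hdeg, h2, ← pow_succ, Nat.sub_add_cancel (Nat.one_le_iff_ne_zero.2 hj)])
    have h5 := (pow_dvd_pow_of_dvd h3 (2 ^ (j - 1))).trans h4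
    rw [← Nat.cast_pow] at h5
    exact Int.natCast_dvd.1 h5
  rw [← Nat.cast_pow, Int.natCast_dvd]
  have hD : (discr K).natAbs ≠ 0 := Int.natAbs_ne_zero.2 (NumberField.discr_ne_zero K)
  rw [← Nat.factorization_prime_le_iff_dvd (pow_ne_zero _ hn0) hD]
  intro p hp
  rw [Nat.factorization_pow, Finsupp.smul_apply, smul_eq_mul]
  by_cases hpn : p ∣ Finset.univ.lcm a
  · have h1 := hsq.natFactorization_le_one p
    have h2 := (hp.pow_dvd_iff_le_factorization hD).1 (key p hp hpn)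
    calc 2 ^ (j - 1) * (Finset.univ.lcm a).factorization p ≤ 2 ^ (j - 1) * 1 :=
          Nat.mul_le_mul_left _ h1
      _ ≤ _ := by rw [mul_one]; exact h2
  · rw [Nat.factorization_eq_zero_of_not_dvd hpn, mul_zero]
    exact Nat.zero_le _

end Pool.Agent.SMQ
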