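import Pool.Agent.Lib.MP_452a87_nt.SpecG

/-!
# Part G: `S_GDp`, dependent tuples are bad for the multipliers `1`
-/

set_option autoImplicit false

namespace Pool.Agent.SMQ

open MvPolynomial

namespace GDpAux

theorem not_indep {ι : Type} (v : ι → ℂ) (p q : ι) (m n : ℕ) (hpq : p ≠ q) (hm : 0 < m)
    (h : v p ^ m = v q ^ n) : ¬ AlgebraicIndependent ℚ v := by
  intro hi
  have h1 : (X p ^ m - X q ^ n : MvPolynomial ι ℚ) = 0 := by
    refine (algebraicIndependent_iff.1 hi) _ ?_
    rw [map_sub, map_pow, map_pow, aeval_X, aeval_X, h, sub_self]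
  have h2 : (X p ^ m : MvPolynomial ι ℚ) = X q ^ n := sub_eq_zero.1 h1
  rw [X_pow_eq_monomial, X_pow_eq_monomial] at h2
  have h3 := (monomial_left_inj (one_ne_zero (α := ℚ))).1 h2
  have h4 := DFunLike.congr_fun h3 p
  rw [Finsupp.single_eq_same, Finsupp.single_eq_of_ne hpq] at h4
  omega

theorem vn_pow {j : ℕ} (a : Fin j → ℕ) (A : Finset (Fin j)) (m : ℕ) :
    vn (fun _ => 1) a A ^ m =
      Complex.exp (((m : ℝ) * Real.sqrt ((∏ i ∈ A, a i : ℕ) : ℝ) : ℝ) : ℂ) := by
  unfold vn
  rw [← Complex.exp_nat_mul, one_mul]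
  push_cast
  rfl

end GDpAux

open GDpAux

theorem pGDp : S_GDp := by
  intro j a hj ha hA
  obtain ⟨A, hne, t, ht⟩ := hA
  have ht0 : 0 < t := by
    have h1 : 0 < ∏ i ∈ A, a i := Finset.prod_pos fun i _ => ha i
    rw [ht] at h1
    exact Nat.pos_of_mul_pos_left h1
  obtain ⟨i, hi⟩ := hne
  have hai : (0 : ℝ) < a i := by exact_mod_cast ha i
  by_cases hs : A = {i}
  · have hex : ∃ i' : Fin j, i' ≠ i := by
      by_cases h0 : (i : ℕ) = 0
      · exact ⟨⟨1, by omega⟩, fun h => by
          have := congrArg Fin.val h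
          simp at this
          omega⟩
      · exact ⟨⟨0, by omega⟩, fun h => h0 (by
          have := congrArg Fin.val h
          simp at this
          omega)⟩
    obtain ⟨i', hi'⟩ := hex
    rw [hs, Finset.prod_singleton] at ht
    refine not_indep _ ⟨{i, i'}, Finset.insert_nonempty _ _⟩ ⟨{i'}, Finset.singleton_nonempty _⟩
      1 t ?_ one_pos ?_
    · intro h
      have h1 : ({i, i'} : Finset (Fin j)) = {i'} := congrArg Subtype.val h
      have h2 : i ∈ ({i'} : Finset (Fin j)) := by
        rw [← h1]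
        exact Finset.mem_insert_self _ _
      exact hi' (Finset.mem_singleton.1 h2).symm
    · show vn (fun _ => 1) a {i, i'} ^ 1 = vn (fun _ => 1) a {i'} ^ t
      rw [vn_pow, vn_pow, Finset.prod_pair hi'.symm, Finset.prod_singleton, ht]
      congr 2
      push_cast
      rw [one_mul, Real.sqrt_mul (by positivity), Real.sqrt_mul_self (by positivity)]
  · have hne' : (A.erase i).Nonempty := by
      rw [Finset.nonempty_iff_ne_empty]
      intro h
      apply hs
      rw [← Finset.insert_erase hi, h, insert_empty_eq]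
    have hprod : (∏ k ∈ A.erase i, a k) * a i = t * t := by
      rw [Finset.prod_erase_mul _ _ hi, ht]
    refine not_indep _ ⟨A.erase i, hne'⟩ ⟨{i}, Finset.singleton_nonempty _⟩ (a i) t ?_ (ha i) ?_
    · intro h
      have h1 : A.erase i = {i} := congrArg Subtype.val h
      have h2 : i ∈ A.erase i := by
        rw [h1]
        exact Finset.mem_singleton_self _
      exact absurd h2 (Finset.notMem_erase i A)
    · show vn (fun _ => 1) a (A.erase i) ^ (a i) = vn (fun _ => 1) a {i} ^ t
      rw [vn_pow, vn_pow, Finset.prod_singleton]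
      congr 2
      have h1 : Real.sqrt ((∏ k ∈ A.erase i, a k : ℕ) : ℝ) * Real.sqrt (a i) = t := by
        rw [← Real.sqrt_mul (by positivity), ← Nat.cast_mul, hprod, Nat.cast_mul,
          Real.sqrt_mul_self (by positivity)]
      have h2 : Real.sqrt (a i) * Real.sqrt (a i) = a i := Real.mul_self_sqrt hai.le
      calc (a i : ℝ) * Real.sqrt ((∏ k ∈ A.erase i, a k : ℕ) : ℝ)
          = (Real.sqrt ((∏ k ∈ A.erase i, a k : ℕ) : ℝ) * Real.sqrt (a i)) * Real.sqrt (a i) := by
            rw [mul_assoc, h2, mul_comm]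
        _ = t * Real.sqrt (a i) := by rw [h1]

end Pool.Agent.SMQ
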