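import Pool.Agent.Lib.MP_452a87_nt.SpecG

/-!
# MP_452a87_nt, G: odd primes in the discriminant of a quadratic field
-/

set_option autoImplicit false

namespace Pool.Agent.SMQ

namespace GDqAux

open NumberField Polynomial

theorem quad (hGD0 : S_GD0) (K : Type) [Field K] [NumberField K] (w : K) (d : ℤ)
    (hw2 : w ^ 2 = (d : K)) (hnsq : ∀ q : ℚ, q ^ 2 ≠ (d : ℚ)) (hfr : Module.finrank ℚ K = 2) :
    ∃ t : ℤ, 4 * d = t ^ 2 * discr K := by
  have hwi : IsIntegral ℤ w := by
    refine ⟨X ^ 2 - C d, monic_X_pow_sub_C d two_ne_zero, ?_⟩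
    rw [eval₂_sub, eval₂_pow, eval₂_X, eval₂_C, hw2]
    simp
  have hwq : IsIntegral ℚ w := hwi.tower_top
  have hmin : minpoly ℚ w = X ^ 2 - C (d : ℚ) := by
    symm
    apply minpoly.eq_of_irreducible_of_monic
    · rw [X_pow_sub_C_irreducible_iff_of_prime Nat.prime_two]
      exact hnsq
    · rw [map_sub, map_pow, aeval_X, aeval_C, hw2]
      simp
    · exact monic_X_pow_sub_C _ two_ne_zero
  have htop : Algebra.adjoin ℚ {w} = ⊤ := by
    have h1 : IntermediateField.adjoin ℚ {w} = ⊤ := by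
      apply IntermediateField.eq_of_le_of_finrank_le le_top
      rw [IntermediateField.finrank_top', hfr, IntermediateField.adjoin.finrank hwq, hmin,
        natDegree_X_pow_sub_C]
    have h2 := IntermediateField.adjoin_simple_toSubalgebra_of_isAlgebraic hwq.isAlgebraic
    rw [h1] at h2
    rw [IntermediateField.top_toSubalgebra] at h2
    exact h2.symm
  obtain ⟨pb, hgen⟩ : ∃ pb : PowerBasis ℚ K, pb.gen = w :=
    ⟨PowerBasis.ofAdjoinEqTop' hwq htop, PowerBasis.ofAdjoinEqTop'_gen hwq htop⟩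
  have hdim : pb.dim = 2 := by
    rw [← pb.natDegree_minpoly, hgen, hmin, natDegree_X_pow_sub_C]
  have hdisc : Algebra.discr ℚ pb.basis = 4 * (d : ℚ) := by
    rw [Algebra.discr_powerBasis_eq_norm, hfr, hgen, hmin]
    have h1 : aeval w (derivative (X ^ 2 - C (d : ℚ))) = algebraMap ℚ K 2 * w := by
      simp
      exact Or.inl one_add_one_eq_two
    have h3 : Algebra.norm ℚ w = - (d : ℚ) := by
      have h4 := Algebra.PowerBasis.norm_gen_eq_coeff_zero_minpoly pb
      rw [hgen, hmin, hdim] at h4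
      rw [h4]
      simp
    rw [h1, map_mul, Algebra.norm_algebraMap, hfr, h3]
    norm_num
  obtain ⟨t, ht⟩ := hGD0 K (Fin pb.dim) pb.basis (fun i => by
    rw [pb.basis_eq_pow, hgen]
    exact hwi.pow _)
  rw [hdisc] at ht
  exact ⟨t, by exact_mod_cast ht⟩

end GDqAux

open NumberField in
theorem pGDq (hGD0 : S_GD0) : S_GDq := by
  intro K inst z d p hz hK hp hp2 hpd hpd2
  -- `d` is not a square
  have hpp : Prime (p : ℤ) := Nat.prime_iff_prime_int.1 hp
  have hnsq : ∀ q : ℚ, q ^ 2 ≠ (d : ℚ) := by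
    intro q hq
    have hsq : IsSquare d := by
      rw [← Rat.isSquare_intCast_iff]
      exact ⟨q, by rw [← hq, sq]⟩
    obtain ⟨t, ht⟩ := hsq
    apply hpd2
    have hpt : (p : ℤ) ∣ t := by
      rw [ht] at hpd
      rcases hpp.dvd_or_dvd hpd with h | h <;> exact h
    rw [ht, sq]
    exact mul_dvd_mul hpt hpt
  have hzK : z ∈ K := by
    rw [hK]
    exact IntermediateField.mem_adjoin_simple_self ℚ z
  have hzi : IsIntegral ℚ z := by
    refine ⟨Polynomial.X ^ 2 - Polynomial.C (d : ℚ), Polynomial.monic_X_pow_sub_C _ two_ne_zero, ?_⟩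
    rw [Polynomial.eval₂_sub, Polynomial.eval₂_pow, Polynomial.eval₂_X, Polynomial.eval₂_C, hz]
    simp
  have hmin : minpoly ℚ z = Polynomial.X ^ 2 - Polynomial.C (d : ℚ) := by
    symm
    apply minpoly.eq_of_irreducible_of_monic
    · rw [X_pow_sub_C_irreducible_iff_of_prime Nat.prime_two]
      exact hnsq
    · rw [map_sub, map_pow, Polynomial.aeval_X, Polynomial.aeval_C, hz]
      simp
    · exact Polynomial.monic_X_pow_sub_C _ two_ne_zero
  have hfr : Module.finrank ℚ K = 2 := by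
    have h1 : Module.finrank ℚ (IntermediateField.adjoin ℚ {z}) = 2 := by
      rw [IntermediateField.adjoin.finrank hzi, hmin, Polynomial.natDegree_X_pow_sub_C]
    rw [hK]
    exact h1
  obtain ⟨t, ht⟩ := GDqAux.quad hGD0 K ⟨z, hzK⟩ d (by
    apply Subtype.ext
    push_cast
    exact hz) hnsq hfr
  by_contra hnd
  have h1 : (p : ℤ) ∣ t ^ 2 * discr K := by
    rw [← ht]
    exact dvd_mul_of_dvd_right hpd 4
  have h2 : (p : ℤ) ∣ t := by
    rcases hpp.dvd_or_dvd h1 with h | h
    · exact hpp.dvd_of_dvd_pow h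
    · exact absurd h hnd
  have h3 : (p : ℤ) ^ 2 ∣ 4 * d := by
    rw [ht]
    exact dvd_mul_of_dvd_left (pow_dvd_pow_of_dvd h2 2) _
  have h4 : IsCoprime ((p : ℤ) ^ 2) 4 := by
    have h5 : IsCoprime (p : ℤ) (2 : ℕ) :=
      Nat.isCoprime_iff_coprime.2 ((Nat.coprime_primes hp Nat.prime_two).2 hp2)
    have h6 : (4 : ℤ) = ((2 : ℕ) : ℤ) ^ 2 := by norm_num
    rw [h6]
    exact h5.pow
  exact hpd2 (h4.dvd_of_dvd_mul_left h3)

end Pool.Agent.SMQ
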