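import Pool.Agent.Lib.MP_452a87_nt.SpecG

/-!
# MP_452a87_nt, G: one quadratic step, unramified at 2
-/

set_option autoImplicit false

namespace Pool.Agent.SMQ

namespace GDrAux

open NumberField Polynomial

theorem main (K' K : Type) [Field K'] [Field K] [NumberField K'] [NumberField K] [Algebra K' K]
    (z : K) (d : ℤ) (hz : z ^ 2 = (d : K)) (h4 : 4 ∣ d - 1)
    (htop : IntermediateField.adjoin K' {z} = ⊤) (h2 : Module.finrank K' K = 2) :
    discr K ∣ discr K' ^ 2 * d ^ Module.finrank ℚ K' := by
  obtain ⟨m, hm⟩ := h4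
  have hd : (d : K) = 1 + 4 * m := by
    have : d = 1 + 4 * m := by linarith
    rw [this]
    push_cast
    ring
  set θ : K := (1 + z) / 2 with hθ
  have hθ2 : θ ^ 2 - θ - m = 0 := by
    rw [hθ]
    have : z ^ 2 = 1 + 4 * m := by rw [hz, hd]
    linear_combination this / 4
  have hzθ : z = 2 * θ - 1 := by
    rw [hθ]
    ring
  have hint : IsIntegral ℤ θ := by
    refine ⟨X ^ 2 - X - C m, ?_, ?_⟩
    · have : (X ^ 2 - X - C m : ℤ[X]) = X ^ 2 - (X + C m) := by ring
      rw [this]
      exact monic_X_pow_sub (by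
        rw [degree_X_add_C]
        norm_num)
    · rw [eval₂_sub, eval₂_sub, eval₂_pow, eval₂_X, eval₂_C]
      exact hθ2
  set x : 𝓞 K := ⟨θ, hint⟩ with hx
  have hx2 : x ^ 2 - x - m = 0 := by
    apply RingOfIntegers.ext
    push_cast
    exact hθ2
  -- the field generated by theta
  have hgen : IntermediateField.adjoin K' {θ} = ⊤ := by
    rw [eq_top_iff, ← htop, IntermediateField.adjoin_le_iff, Set.singleton_subset_iff, hzθ]
    exact sub_mem (mul_mem (by
      have := (IntermediateField.adjoin K' {θ}).natCast_mem 2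
      exact_mod_cast this) (IntermediateField.mem_adjoin_simple_self K' θ)) (one_mem _)
  have hint' : IsIntegral K' θ := hint.tower_top
  have hadj : Algebra.adjoin K' {algebraMap (𝓞 K) K x} = ⊤ := by
    have h1 := IntermediateField.adjoin_simple_toSubalgebra_of_isAlgebraic hint'.isAlgebraic
    rw [hgen] at h1
    rw [IntermediateField.top_toSubalgebra] at h1
    exact h1.symm
  -- the minimal polynomial
  set f : (𝓞 K')[X] := X ^ 2 - X - C (m : 𝓞 K') with hf
  have hfm : f.Monic := by
    have : f = X ^ 2 - (X + C (m : 𝓞 K')) := by rw [hf]; ring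
    rw [this]
    exact monic_X_pow_sub (by
      rw [degree_X_add_C]
      norm_num)
  have hfd : f.natDegree = 2 := by
    have : f = X ^ 2 - (X + C (m : 𝓞 K')) := by rw [hf]; ring
    rw [this, natDegree_sub_eq_left_of_natDegree_lt, natDegree_X_pow]
    rw [natDegree_X_add_C, natDegree_X_pow]
    norm_num
  have hfx : aeval x f = 0 := by
    rw [hf]
    simp only [map_sub, map_pow, aeval_X]
    rw [← hx2]
    congr 1
    simp
  have hxi : IsIntegral (𝓞 K') x := ⟨f, hfm, hfx⟩
  have hmin : minpoly (𝓞 K') x = f := by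
    have h1 : minpoly (𝓞 K') x ∣ f := minpoly.isIntegrallyClosed_dvd hxi hfx
    have h3 : (minpoly (𝓞 K') x).natDegree = 2 := by
      have h4 := minpoly.isIntegrallyClosed_eq_field_fractions K' K hxi
      have h5 : (minpoly K' θ).natDegree = 2 := by
        rw [← IntermediateField.adjoin.finrank hint', hgen, IntermediateField.finrank_top', h2]
      have h6 : algebraMap (𝓞 K) K x = θ := rfl
      rw [h6] at h4
      rw [h4, (minpoly.monic hxi).natDegree_map] at h5
      exact h5
    exact (eq_of_monic_of_dvd_of_natDegree_le (minpoly.monic hxi) hfm h1 (by rw [h3, hfd])).symm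
  have hmem := aeval_derivative_mem_differentIdeal (𝓞 K') K' K x hadj
  rw [hmin] at hmem
  have hder : aeval x (derivative f) = 2 * x - 1 := by
    rw [hf]
    simp only [derivative_X_pow, derivative_X, derivative_C, map_sub, map_mul, map_one, sub_zero,
      Nat.cast_ofNat, map_ofNat]
    norm_num
  rw [hder] at hmem
  set w : 𝓞 K := 2 * x - 1 with hw
  have hw2 : w ^ 2 = algebraMap ℤ (𝓞 K) d := by
    have hd' : (d : 𝓞 K) = 1 + 4 * m := by
      have : d = 1 + 4 * m := by linarith
      rw [this]
      push_cast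
      ring
    rw [hw, eq_intCast, hd']
    linear_combination 4 * hx2
  have hnorm : (Algebra.norm ℤ w).natAbs = d.natAbs ^ Module.finrank ℚ K' := by
    have h5 : (Algebra.norm ℤ w) ^ 2 = d ^ (2 * Module.finrank ℚ K') := by
      rw [← map_pow, hw2, Algebra.norm_algebraMap_of_basis (RingOfIntegers.basis K),
        ← Module.finrank_eq_card_chooseBasisIndex, RingOfIntegers.rank,
        ← Module.finrank_mul_finrank ℚ K' K, h2, mul_comm]
    have h6 := congrArg Int.natAbs h5
    rw [Int.natAbs_pow, Int.natAbs_pow, mul_comm, pow_mul] at h6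
    exact Nat.pow_left_injective two_ne_zero h6
  have h7 : Ideal.absNorm (differentIdeal (𝓞 K') (𝓞 K)) ∣ d.natAbs ^ Module.finrank ℚ K' := by
    rw [← hnorm, ← Ideal.absNorm_span_singleton]
    exact Ideal.absNorm_dvd_absNorm_of_le ((Ideal.span_singleton_le_iff_mem _).2 hmem)
  have h8 := natAbs_discr_eq_absNorm_differentIdeal_mul_natAbs_discr_pow K' (𝓞 K') K (𝓞 K)
  rw [h2] at h8
  rw [← Int.natAbs_dvd_natAbs, h8, Int.natAbs_mul, Int.natAbs_pow, Int.natAbs_pow, mul_comm]
  exact mul_dvd_mul_left _ h7

end GDrAux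

open NumberField in
theorem pGDr : S_GDr := by
  intro K' K _ _ z d hz h4 hle hzK hK hdeg
  let alg : Algebra K' K := (IntermediateField.inclusion hle).toAlgebra
  have tower : IsScalarTower ℚ K' K := IsScalarTower.of_algebraMap_eq' (Subsingleton.elim _ _)
  have tower2 : IsScalarTower K' K ℂ := IsScalarTower.of_algebraMap_eq' rfl
  have h2 : Module.finrank K' K = 2 := by
    have h1 := Module.finrank_mul_finrank ℚ K' K
    rw [hdeg, mul_comm] at h1
    exact Nat.eq_of_mul_eq_mul_right Module.finrank_pos h1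
  refine GDrAux.main K' K ⟨z, hzK⟩ d ?_ h4 ?_ h2
  · apply Subtype.ext
    push_cast
    exact hz
  · have key : ∀ x : ℂ, ∀ hx : x ∈ K, (⟨x, hx⟩ : K) ∈ IntermediateField.adjoin K' {(⟨z, hzK⟩ : K)} := by
      intro x hx
      have h3 : K ≤ IntermediateField.restrictScalars ℚ
          ((IntermediateField.adjoin K' {(⟨z, hzK⟩ : K)}).map (IsScalarTower.toAlgHom K' K ℂ)) := by
        conv_lhs => rw [hK]
        rw [sup_le_iff]
        constructor
        · intro y hy
          rw [IntermediateField.mem_restrictScalars]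
          exact ⟨⟨y, hle hy⟩, (IntermediateField.adjoin K' {(⟨z, hzK⟩ : K)}).algebraMap_mem
            (⟨y, hy⟩ : K'), rfl⟩
        · rw [IntermediateField.adjoin_le_iff, Set.singleton_subset_iff]
          exact ⟨⟨z, hzK⟩, IntermediateField.mem_adjoin_simple_self K' _, rfl⟩
      obtain ⟨y, hy, hyx⟩ := h3 hx
      have : y = ⟨x, hx⟩ := Subtype.ext hyx
      rw [← this]
      exact hy
    rw [eq_top_iff]
    rintro ⟨x, hx⟩ -
    exact key x hx

end Pool.Agent.SMQ
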