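import Pool.Agent.Lib.MP_452a87_nt.SpecG

/-!
# MP_452a87_nt, G: discriminants in towers
-/

set_option autoImplicit false

namespace Pool.Agent.SMQ

open NumberField in
theorem pGDt : S_GDt := by
  intro k K _ _ c hle hdeg
  let alg : Algebra k K := (IntermediateField.inclusion hle).toAlgebra
  have tower : IsScalarTower ℚ k K := IsScalarTower.of_algebraMap_eq' (Subsingleton.elim _ _)
  have h2 : Module.finrank k K = c := by
    have h1 := Module.finrank_mul_finrank ℚ k K
    rw [hdeg, mul_comm] at h1
    exact Nat.eq_of_mul_eq_mul_right Module.finrank_pos h1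
  have h8 := natAbs_discr_eq_absNorm_differentIdeal_mul_natAbs_discr_pow k (𝓞 k) K (𝓞 K)
  rw [h2] at h8
  rw [← Int.natAbs_dvd_natAbs, h8, Int.natAbs_pow]
  exact dvd_mul_left _ _

end Pool.Agent.SMQ
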