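import Pool.Agent.Lib.MP_452a87_nt.SpecG

/-!
# MP_452a87_nt, G: the upper bound of the discriminant for given generators
-/

set_option autoImplicit false

namespace Pool.Agent.SMQ

namespace GDuAux

open IntermediateField

theorem discr_one (K : Type) [Field K] [NumberField K] (h : Module.finrank ℚ K = 1) :
    NumberField.discr K = 1 := by
  have h1 : (⊥ : Subalgebra ℚ K) = ⊤ := Subalgebra.bot_eq_top_of_finrank_eq_one h
  have h2 : Function.Surjective (algebraMap ℚ K) := by
    intro x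
    have h3 : x ∈ (⊥ : Subalgebra ℚ K) := by
      rw [h1]
      exact Algebra.mem_top
    exact Algebra.mem_bot.1 h3
  let e : ℚ ≃ₐ[ℚ] K := AlgEquiv.ofBijective (Algebra.ofId ℚ K) ⟨(algebraMap ℚ K).injective, h2⟩
  rw [← NumberField.discr_eq_discr_of_algEquiv ℚ e, Rat.numberField_discr]

theorem int_of {z : ℂ} {d : ℤ} (hz : z ^ 2 = (d : ℂ)) : IsIntegral ℚ z := by
  refine ⟨Polynomial.X ^ 2 - Polynomial.C (d : ℚ), Polynomial.monic_X_pow_sub_C _ two_ne_zero, ?_⟩
  rw [Polynomial.eval₂_sub, Polynomial.eval₂_pow, Polynomial.eval₂_X, Polynomial.eval₂_C, hz]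
  simp

theorem deg_le_two {z : ℂ} {d : ℤ} (hz : z ^ 2 = (d : ℂ)) :
    Module.finrank ℚ (adjoin ℚ {z}) ≤ 2 := by
  rw [adjoin.finrank (int_of hz)]
  have h1 : minpoly ℚ z ∣ Polynomial.X ^ 2 - Polynomial.C (d : ℚ) := by
    apply minpoly.dvd
    rw [map_sub, map_pow, Polynomial.aeval_X, Polynomial.aeval_C, hz]
    simp
  have h2 := Polynomial.natDegree_le_of_dvd h1
    (Polynomial.monic_X_pow_sub_C (d : ℚ) two_ne_zero).ne_zero
  rwa [Polynomial.natDegree_X_pow_sub_C] at h2

theorem adj_succ {j : ℕ} (r : Fin (j + 1) → ℂ) : adjoin ℚ (Set.range r) =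
    adjoin ℚ (Set.range fun i : Fin j => r i.castSucc) ⊔ adjoin ℚ {r (Fin.last j)} := by
  rw [← adjoin_union]
  congr 1
  ext x
  constructor
  · rintro ⟨i, rfl⟩
    rcases Fin.eq_castSucc_or_eq_last i with ⟨i', rfl⟩ | rfl
    · exact Or.inl ⟨i', rfl⟩
    · exact Or.inr rfl
  · rintro (⟨i, rfl⟩ | hx)
    · exact ⟨i.castSucc, rfl⟩
    · exact ⟨Fin.last j, hx.symm⟩

theorem fin_adj {j : ℕ} (r : Fin j → ℂ) (a : Fin j → ℤ) (hr : ∀ i, r i ^ 2 = (a i : ℂ)) :
    FiniteDimensional ℚ (adjoin ℚ (Set.range r)) :=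
  finiteDimensional_adjoin fun x hx => by
    obtain ⟨i, rfl⟩ := hx
    exact int_of (hr i)

theorem deg_le {j : ℕ} (r : Fin j → ℂ) (a : Fin j → ℤ) (hr : ∀ i, r i ^ 2 = (a i : ℂ)) :
    Module.finrank ℚ (adjoin ℚ (Set.range r)) ≤ 2 ^ j := by
  induction j with
  | zero =>
    have h1 : Set.range r = ∅ := Set.range_eq_empty r
    rw [h1, adjoin_empty]
    have h2 : Module.finrank ℚ (⊥ : IntermediateField ℚ ℂ) = 1 := IntermediateField.finrank_bot
    exact h2.le
  | succ j ih =>
    rw [adj_succ r]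
    refine (finrank_sup_le _ _).trans ?_
    rw [pow_succ]
    exact Nat.mul_le_mul (ih _ (fun i => a i.castSucc) fun i => hr _) (deg_le_two (hr _))

end GDuAux

open NumberField GDuAux in
theorem pGDu (hGDr : S_GDr) : S_GDu := by
  intro j
  induction j with
  | zero =>
    intro r a K _ hr ha hK hdeg
    rw [pow_zero] at hdeg
    rw [discr_one K hdeg]
    exact one_dvd _
  | succ j ih =>
    intro r a K _ hr ha hK hdeg
    set K' := IntermediateField.adjoin ℚ (Set.range fun i : Fin j => r i.castSucc) with hK'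
    have hfd : FiniteDimensional ℚ K' := fin_adj _ (fun i => a i.castSucc) fun i => hr _
    have hnf : NumberField K' := { to_charZero := inferInstance, to_finiteDimensional := hfd }
    have hsup : K = K' ⊔ IntermediateField.adjoin ℚ {r (Fin.last j)} := by
      rw [hK, adj_succ r]
    have h1 : Module.finrank ℚ K' ≤ 2 ^ j := deg_le _ (fun i => a i.castSucc) fun i => hr _
    have h2 : Module.finrank ℚ K ≤ Module.finrank ℚ K' * 2 := by
      have h3 := IntermediateField.finrank_sup_le K' (IntermediateField.adjoin ℚ {r (Fin.last j)})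
      rw [← hsup] at h3
      exact h3.trans (Nat.mul_le_mul_left _ (deg_le_two (hr _)))
    have h4 : Module.finrank ℚ K' = 2 ^ j := by
      rw [hdeg, pow_succ] at h2
      omega
    have h5 := ih (fun i => r i.castSucc) (fun i => a i.castSucc) K' (fun i => hr _) (fun i => ha _)
      hK' h4
    have hle : K' ≤ K := by
      rw [hsup]
      exact le_sup_left
    have hz : r (Fin.last j) ∈ K := by
      rw [hK]
      exact IntermediateField.subset_adjoin ℚ _ ⟨Fin.last j, rfl⟩
    have h6 := hGDr K' K (r (Fin.last j)) (a (Fin.last j)) (hr _) (ha _) hle hz hsup (by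
      rw [hdeg, h4, pow_succ, mul_comm])
    refine h6.trans ?_
    rw [h4, Fin.prod_univ_castSucc, Nat.add_sub_cancel]
    apply mul_dvd_mul _ dvd_rfl
    refine (pow_dvd_pow_of_dvd h5 2).trans ?_
    rw [← Finset.prod_pow]
    apply Finset.prod_dvd_prod_of_dvd
    intro i _
    have hj : j ≠ 0 := by
      rintro rfl
      exact i.elim0
    rw [← pow_mul, ← pow_succ, Nat.sub_add_cancel (Nat.one_le_iff_ne_zero.2 hj)]

end Pool.Agent.SMQ
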