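import Pool.Agent.Lib.MP_452a87_nt.SpecG

/-!
# MP_452a87_nt, G: the upper bound of the discriminant
-/

set_option autoImplicit false

namespace Pool.Agent.SMQ

namespace GDvAux

open IntermediateField

theorem lcm_ne_zero {j : ℕ} (a : Fin j → ℕ) (ha : ∀ i, Squarefree (a i)) :
    Finset.univ.lcm a ≠ 0 := by
  intro h
  rw [Finset.lcm_eq_zero_iff] at h
  obtain ⟨i, -, hi⟩ := h
  exact (ha i).ne_zero hi

theorem exists_dvd {j : ℕ} (a : Fin j → ℕ) {p : ℕ} (hp : p.Prime) (h : p ∣ Finset.univ.lcm a) :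
    ∃ i, p ∣ a i := by
  have h1 : Finset.univ.lcm a ∣ ∏ i, a i :=
    Finset.lcm_dvd fun i _ => Finset.dvd_prod_of_mem a (Finset.mem_univ i)
  obtain ⟨i, -, hi⟩ := hp.prime.exists_mem_finset_dvd (h.trans h1)
  exact ⟨i, hi⟩

theorem rt_sq (s : Bool) (a : ℕ) : rt s a ^ 2 = ((if s then -(a : ℤ) else (a : ℤ) : ℤ) : ℂ) := by
  have h1 : ((Real.sqrt (a : ℝ) : ℝ) : ℂ) ^ 2 = (a : ℂ) := by
    rw [← Complex.ofReal_pow, Real.sq_sqrt (Nat.cast_nonneg a)]
    simp
  unfold rt
  rw [mul_pow, h1]
  cases s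
  · simp
  · simp

/-- the signed number which is one modulo four -/
def st (a : ℕ) : ℤ := if decide (a % 4 = 3) then -(a : ℤ) else (a : ℤ)

theorem st_mod {a : ℕ} (ha : Odd a) : (4 : ℤ) ∣ st a - 1 := by
  unfold st
  obtain ⟨k, hk⟩ := ha
  by_cases h : a % 4 = 3
  · rw [if_pos (decide_eq_true h)]
    omega
  · rw [if_neg (by simpa using h)]
    omega

theorem dvd_st {p a : ℕ} : (p : ℤ) ∣ st a ↔ p ∣ a := by
  unfold st
  split_ifs
  · rw [dvd_neg, Int.natCast_dvd_natCast]
  · rw [Int.natCast_dvd_natCast]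

theorem st_ne {a : ℕ} (ha : a ≠ 0) : st a ≠ 0 := by
  unfold st
  split_ifs
  · rw [neg_ne_zero]
    exact_mod_cast ha
  · exact_mod_cast ha

/-- A prime which divides a squarefree number does it only once. -/
theorem split_st {p a : ℕ} (hp : p.Prime) (ha : Squarefree a) (h : p ∣ a) :
    ∃ b : ℤ, st a = p * b ∧ ¬ (p : ℤ) ∣ b := by
  obtain ⟨b, hb⟩ := dvd_st.2 h
  refine ⟨b, hb, ?_⟩
  intro h1
  have h2 : ((p * p : ℕ) : ℤ) ∣ st a := by
    rw [hb, Nat.cast_mul]
    exact mul_dvd_mul_left _ h1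
  have h3 := dvd_st.1 h2
  exact hp.one_lt.ne' (Nat.isUnit_iff.1 (ha p h3))

end GDvAux

open NumberField GDvAux in
theorem pGDv (hGDu : S_GDu) : S_GDv := by
  intro j a K _ ha hK hdeg
  have hn0 := lcm_ne_zero a fun i => (ha i).1
  set r : Fin j → ℂ := fun i => rt (sg a i) (a i) with hr
  have hr2 : ∀ i, r i ^ 2 = (st (a i) : ℂ) := fun i => rt_sq (sg a i) (a i)
  have hK' : K = IntermediateField.adjoin ℚ (Set.range r) := hK
  have hD : (discr K).natAbs ≠ 0 := Int.natAbs_ne_zero.2 (NumberField.discr_ne_zero K)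
  rw [← Nat.cast_pow, ← Int.natAbs_dvd, Int.natCast_dvd_natCast,
    ← Nat.factorization_prime_le_iff_dvd hD (pow_ne_zero _ hn0)]
  intro p hp
  have hpp : Prime (p : ℤ) := Nat.prime_iff_prime_int.1 hp
  rw [Nat.factorization_pow, Finsupp.smul_apply, smul_eq_mul]
  by_cases hpn : p ∣ Finset.univ.lcm a
  · obtain ⟨i0, hi0⟩ := exists_dvd a hp hpn
    have hpodd : p ≠ 2 := by
      rintro rfl
      have h1 := (ha i0).2
      rw [← Nat.not_even_iff_odd] at h1
      exact h1 (even_iff_two_dvd.2 hi0)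
    choose! b hb hb' using fun (i : Fin j) (h : p ∣ a i) => split_st hp (ha i).1 h
    have hr0 : r i0 ≠ 0 := by
      intro h
      have h1 := hr2 i0
      rw [h] at h1
      have h2 : ((st (a i0) : ℤ) : ℂ) = 0 := by rw [← h1]; ring
      exact st_ne (ha i0).1.ne_zero (by exact_mod_cast h2)
    have hp0 : (p : ℂ) ≠ 0 := by exact_mod_cast hp.ne_zero
    set r' : Fin j → ℂ := fun i => if i ≠ i0 ∧ p ∣ a i then r i * r i0 / p else r i with hr'
    set a' : Fin j → ℤ := fun i => if i ≠ i0 ∧ p ∣ a i then b i * b i0 else st (a i) with ha'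
    have e1 : ∀ i, r' i ^ 2 = (a' i : ℂ) := by
      intro i
      simp only [hr', ha']
      split_ifs with h
      · have h1 := hb i h.2
        have h2 := hb i0 hi0
        rw [div_pow, mul_pow, hr2, hr2, h1, h2]
        push_cast
        field_simp
      · exact hr2 i
    have e2 : ∀ i, 4 ∣ a' i - 1 := by
      intro i
      simp only [ha']
      split_ifs with h
      · have h1 := st_mod (ha i).2
        have h2 := st_mod (ha i0).2
        rw [hb i h.2] at h1
        rw [hb i0 hi0] at h2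
        obtain ⟨x, hx⟩ := h1
        obtain ⟨y, hy⟩ := h2
        obtain ⟨k, hk⟩ := hp.odd_of_ne_two hpodd
        have h3 : (p : ℤ) = 2 * k + 1 := by exact_mod_cast hk
        have h4 : (p : ℤ) ^ 2 * (b i * b i0) = (4 * x + 1) * (4 * y + 1) := by
          linear_combination (4 * y + 1) * hx + (p : ℤ) * b i * hy
        refine ⟨(4 * x * y + x + y) - (k ^ 2 + k) * (b i * b i0), ?_⟩
        rw [h3] at h4
        linear_combination h4
      · exact st_mod (ha i).2
    have e3 : K = IntermediateField.adjoin ℚ (Set.range r') := by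
      apply le_antisymm
      · rw [hK', IntermediateField.adjoin_le_iff]
        have h0 : r i0 ∈ IntermediateField.adjoin ℚ (Set.range r') := by
          have h1 : r' i0 = r i0 := by
            simp only [hr']
            rw [if_neg]
            rintro ⟨h, -⟩
            exact h rfl
          rw [← h1]
          exact IntermediateField.subset_adjoin ℚ _ ⟨i0, rfl⟩
        rintro _ ⟨i, rfl⟩
        have h1 : r' i ∈ IntermediateField.adjoin ℚ (Set.range r') :=
          IntermediateField.subset_adjoin ℚ _ ⟨i, rfl⟩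
        by_cases h : i ≠ i0 ∧ p ∣ a i
        · have h2 : r' i = r i * r i0 / p := by
            simp only [hr']
            rw [if_pos h]
          have h3 : r i = r' i * p / r i0 := by
            rw [h2]
            field_simp
          rw [h3]
          exact div_mem (mul_mem h1 (natCast_mem _ p)) h0
        · have h2 : r' i = r i := by
            simp only [hr']
            rw [if_neg h]
          rw [← h2]
          exact h1
      · rw [IntermediateField.adjoin_le_iff]
        rintro _ ⟨i, rfl⟩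
        have h1 : ∀ i, r i ∈ K := by
          intro i
          rw [hK']
          exact IntermediateField.subset_adjoin ℚ _ ⟨i, rfl⟩
        simp only [hr']
        split_ifs with h
        · exact div_mem (mul_mem (h1 i) (h1 i0)) (natCast_mem _ p)
        · exact h1 i
    have e4 := hGDu j r' a' K e1 e2 e3 hdeg
    have e5 : a' i0 = p * b i0 := by
      simp only [ha']
      rw [if_neg, hb i0 hi0]
      rintro ⟨h, -⟩
      exact h rfl
    rw [← Finset.mul_prod_erase Finset.univ _ (Finset.mem_univ i0), e5, mul_pow, mul_assoc] at e4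
    set M : ℤ := b i0 ^ (2 ^ (j - 1)) * ∏ x ∈ Finset.univ.erase i0, a' x ^ (2 ^ (j - 1)) with hM
    have hpM : ¬ (p : ℤ) ∣ M := by
      intro h
      rcases hpp.dvd_or_dvd h with h1 | h1
      · exact hb' i0 hi0 (hpp.dvd_of_dvd_pow h1)
      · obtain ⟨x, hx, h2⟩ := hpp.exists_mem_finset_dvd h1
        have h3 := hpp.dvd_of_dvd_pow h2
        simp only [ha'] at h3
        split_ifs at h3 with h4
        · rcases hpp.dvd_or_dvd h3 with h5 | h5
          · exact hb' x h4.2 h5
          · exact hb' i0 hi0 h5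
        · exact h4 ⟨Finset.ne_of_mem_erase hx, dvd_st.1 h3⟩
    have h6 : (discr K).natAbs.factorization p ≤ 2 ^ (j - 1) := by
      by_contra hcon
      have h7 := (hp.pow_dvd_iff_le_factorization hD).2 (Nat.succ_le_of_lt (not_le.1 hcon))
      have h8 : (p : ℤ) ^ (2 ^ (j - 1) + 1) ∣ (p : ℤ) ^ (2 ^ (j - 1)) * M := by
        refine dvd_trans ?_ e4
        rw [← Nat.cast_pow]
        exact Int.natCast_dvd.2 h7
      rw [pow_succ] at h8
      exact hpM ((mul_dvd_mul_iff_left (pow_ne_zero _ hpp.ne_zero)).1 h8)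
    have h9 : 1 ≤ (Finset.univ.lcm a).factorization p :=
      (hp.dvd_iff_one_le_factorization hn0).1 hpn
    calc (discr K).natAbs.factorization p ≤ 2 ^ (j - 1) * 1 := by rw [mul_one]; exact h6
      _ ≤ _ := Nat.mul_le_mul_left _ h9
  · have e4 := hGDu j r (fun i => st (a i)) K hr2 (fun i => st_mod (ha i).2) hK' hdeg
    rw [Nat.factorization_eq_zero_of_not_dvd]
    · exact Nat.zero_le _
    · intro h
      have h1 : (p : ℤ) ∣ ∏ i, st (a i) ^ (2 ^ (j - 1)) := (Int.natCast_dvd.2 h).trans e4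
      obtain ⟨i, -, h2⟩ := hpp.exists_mem_finset_dvd h1
      have h3 := dvd_st.1 (hpp.dvd_of_dvd_pow h2)
      exact hpn (h3.trans (Finset.dvd_lcm (Finset.mem_univ i)))

end Pool.Agent.SMQ
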