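import Pool.Agent.Lib.MP_452a87_nt.SpecG

/-!
# 452a87 G/GFb: the fibre theorem
-/

set_option autoImplicit false

namespace Pool.Agent.SMQ

open Finset

namespace GFbAux

/-- A product of distinct primes over a nonempty set is not a square. -/
theorem not_sq {w : ℕ} (p : Fin w → ℕ) (hp : ∀ l, (p l).Prime) (hi : Function.Injective p)
    (U : Finset (Fin w)) (hU : U.Nonempty) : ¬ IsSquare (∏ l ∈ U, p l) := by
  rintro ⟨y, hy⟩
  obtain ⟨l0, hl0⟩ := hU
  have hpr := hp l0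
  rw [← Finset.mul_prod_erase U _ hl0] at hy
  have h1 : p l0 ∣ y * y := by
    rw [← hy]
    exact Dvd.intro _ rfl
  have h2 : p l0 ∣ y := by
    rcases (hpr.dvd_mul).mp h1 with h | h <;> exact h
  obtain ⟨u, rfl⟩ := h2
  have h3 : ∏ l ∈ U.erase l0, p l = p l0 * (u * u) := by
    refine Nat.eq_of_mul_eq_mul_left hpr.pos ?_
    rw [hy]
    ring
  have h4 : p l0 ∣ ∏ l ∈ U.erase l0, p l := by
    rw [h3]
    exact Dvd.intro _ rfl
  obtain ⟨l, hl, hld⟩ := (hpr.prime.dvd_finsetProd_iff _).mp h4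
  have h5 := (Nat.prime_dvd_prime_iff_eq hpr (hp l)).mp hld
  exact Finset.ne_of_mem_erase hl (hi h5).symm

theorem ind_of {j k w : ℕ} (p : Fin w → ℕ) (hp : ∀ l, (p l).Prime) (hi : Function.Injective p)
    (D : Fin j → Fin k → Finset (Fin w)) (hD : ∀ i t, (D i t).Nonempty)
    (hdis : ∀ i t i' t', (i, t) ≠ (i', t') → Disjoint (D i t) (D i' t')) :
    Ind (fun q : Fin j × Fin k => ∏ l ∈ D q.1 q.2, p l) := by
  classical
  intro X hX
  have h1 : ∏ q ∈ X, ∏ l ∈ D q.1 q.2, p l = ∏ l ∈ X.biUnion (fun q => D q.1 q.2), p l := by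
    rw [Finset.prod_biUnion]
    intro q _ q' _ hne
    exact hdis q.1 q.2 q'.1 q'.2 (by simpa using hne)
  rw [h1]
  refine not_sq p hp hi _ ?_
  obtain ⟨q, hq⟩ := hX
  obtain ⟨l, hl⟩ := hD q.1 q.2
  exact ⟨l, Finset.mem_biUnion.2 ⟨q, hq, hl⟩⟩

theorem ncard_flt {T : Type} [Fintype T] (P : T → Prop) [DecidablePred P] :
    Set.ncard {x | P x} = (Finset.univ.filter P).card := by
  rw [← Set.ncard_coe_finset]
  congr 1
  ext x
  simp

end GFbAux

open GFbAux

theorem pGFb (hCu : S_GCu) (hCb : S_ECb) (hCi : S_Ci2) : S_GFb := by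
  intro j ε hj hε
  classical
  set δ : ℝ := ε / 2 ^ (2 ^ j) with hδ
  have hδ0 : 0 < δ := by positivity
  obtain ⟨w0, hw0⟩ := hCu j (j + 4) δ hj hδ0
  refine ⟨w0, fun w hw p e lam hp hpi he hlam => ?_⟩
  by_contra hcon
  push Not at hcon
  let aT : (Fin j → Finset (Fin w)) → Fin j → ℕ := fun x i => e i * ∏ l ∈ x i, p l
  -- some circuit has many tuples
  have hC : ∃ C : Finset (Finset (Fin j)), δ * (2 ^ j - 1) ^ w ≤
      (Set.ncard {x : Fin j → Finset (Fin w) | (∀ l, ∃ i, l ∈ x i) ∧ Crc C (vn lam (aT x))} : ℝ) := by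
    by_contra hno
    push Not at hno
    have hsub : (Finset.univ.filter fun x : Fin j → Finset (Fin w) =>
        (∀ l, ∃ i, l ∈ x i) ∧ BadN lam (aT x)) ⊆
        (Finset.univ : Finset (Finset (Finset (Fin j)))).biUnion (fun C =>
          Finset.univ.filter fun x : Fin j → Finset (Fin w) =>
            (∀ l, ∃ i, l ∈ x i) ∧ Crc C (vn lam (aT x))) := by
      intro x hx
      rw [Finset.mem_filter] at hx
      obtain ⟨C, hC⟩ := hCi j (vn lam (aT x)) hx.2.2
      rw [Finset.mem_biUnion]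
      exact ⟨C, Finset.mem_univ _, Finset.mem_filter.mpr ⟨Finset.mem_univ _, hx.2.1, hC⟩⟩
    have h1 := (Finset.card_le_card hsub).trans Finset.card_biUnion_le
    have h2 : (Set.ncard {x : Fin j → Finset (Fin w) | (∀ l, ∃ i, l ∈ x i) ∧ BadN lam (aT x)} : ℝ) ≤
        ∑ C : Finset (Finset (Fin j)), (Set.ncard {x : Fin j → Finset (Fin w) |
          (∀ l, ∃ i, l ∈ x i) ∧ Crc C (vn lam (aT x))} : ℝ) := by
      rw [ncard_flt]
      have h3 : ∑ C : Finset (Finset (Fin j)), (Set.ncard {x : Fin j → Finset (Fin w) |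
          (∀ l, ∃ i, l ∈ x i) ∧ Crc C (vn lam (aT x))} : ℝ) =
          ((∑ C : Finset (Finset (Fin j)), (Finset.univ.filter fun x : Fin j → Finset (Fin w) =>
            (∀ l, ∃ i, l ∈ x i) ∧ Crc C (vn lam (aT x))).card : ℕ) : ℝ) := by
        push_cast
        refine Finset.sum_congr rfl fun C _ => ?_
        rw [ncard_flt]
      rw [h3]
      exact_mod_cast h1
    have h4 : ∑ C : Finset (Finset (Fin j)), (Set.ncard {x : Fin j → Finset (Fin w) |
          (∀ l, ∃ i, l ∈ x i) ∧ Crc C (vn lam (aT x))} : ℝ) ≤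
        ∑ C : Finset (Finset (Fin j)), δ * (2 ^ j - 1) ^ w :=
      Finset.sum_le_sum fun C _ => (hno C).le
    rw [Finset.sum_const, nsmul_eq_mul, Finset.card_univ, Fintype.card_finset, Fintype.card_finset,
      Fintype.card_fin] at h4
    have h5 : ((2 ^ 2 ^ j : ℕ) : ℝ) * (δ * (2 ^ j - 1) ^ w) = ε * (2 ^ j - 1) ^ w := by
      rw [hδ]
      push_cast
      field_simp
    rw [h5] at h4
    exact absurd (h2.trans h4) (not_le.2 hcon)
  obtain ⟨C, hC⟩ := hC
  obtain ⟨D, a, hD, hdis, had, hcube⟩ := hw0 w hw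
    {x : Fin j → Finset (Fin w) | (∀ l, ∃ i, l ∈ x i) ∧ Crc C (vn lam (aT x))}
    (fun x hx => hx.1) hC
  obtain ⟨W, hW⟩ := hCb j (fun i => e i * ∏ l ∈ a i, p l) (fun i t => ∏ l ∈ D i t, p l) lam C
    (fun W => aT (fun i => a i ∪ (W i).biUnion (D i)))
    (fun i => Nat.mul_pos (he i) (Finset.prod_pos fun l _ => (hp l).pos))
    (ind_of p hp hpi D hD hdis) hlam (by
      intro W i
      refine ⟨1, 1, Nat.one_pos, Nat.one_pos, ?_⟩
      have h1 : ∏ l ∈ a i ∪ (W i).biUnion (D i), p l =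
          (∏ l ∈ a i, p l) * ∏ t ∈ W i, ∏ l ∈ D i t, p l := by
        rw [Finset.prod_union, Finset.prod_biUnion]
        · intro t _ t' _ hne
          exact hdis i t i t' (by simpa using hne)
        · rw [Finset.disjoint_biUnion_right]
          exact fun t _ => had i t
      show (e i * ∏ l ∈ a i ∪ (W i).biUnion (D i), p l) * 1 ^ 2 = _
      rw [h1]
      ring)
  exact hW (hcube W).2

end Pool.Agent.SMQ
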