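import Pool.Agent.Lib.MP_452a87_nt.SpecG

/-!
# Part G: `S_GFn`, ordering by discriminant
-/

set_option autoImplicit false

namespace Pool.Agent.SMQ

open IntermediateField

namespace GFnAux

/-- The multipliers `1`, `2` of a family of bits. -/
def em {j : ℕ} (E : Fin j → Bool) (i : Fin j) : ℕ := if E i then 2 else 1

theorem em_or {j : ℕ} (E : Fin j → Bool) (i : Fin j) : em E i = 1 ∨ em E i = 2 := by
  unfold em
  cases E i
  · exact Or.inl rfl
  · exact Or.inr rfl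

theorem em_pos {j : ℕ} (E : Fin j → Bool) (i : Fin j) : 0 < em E i := by
  rcases em_or E i with h | h <;> omega

theorem ex_em {j : ℕ} (e : Fin j → ℕ) (he : ∀ i, e i = 1 ∨ e i = 2) :
    ∃ E : Fin j → Bool, e = em E := by
  refine ⟨fun i => decide (e i = 2), ?_⟩
  funext i
  unfold em
  rcases he i with h | h <;> simp [h]

theorem lm_ne {j : ℕ} (L : ℂ) (hL : L ≠ 0) (s : Fin j → Bool) (A : Finset (Fin j)) :
    lm L s A ≠ 0 := by
  unfold lm
  refine mul_ne_zero hL (Finset.prod_ne_zero_iff.2 fun i _ => ?_)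
  split_ifs
  · exact Complex.I_ne_zero
  · exact one_ne_zero

theorem rt_sq (s : Bool) (b : ℕ) : rt s b ^ 2 = (((if s then -(b : ℤ) else (b : ℤ)) : ℤ) : ℂ) := by
  unfold rt
  have h1 : (((Real.sqrt (b : ℝ) : ℝ) : ℂ)) ^ 2 = (b : ℂ) := by
    rw [← Complex.ofReal_pow, Real.sq_sqrt (Nat.cast_nonneg b)]
    push_cast
    rfl
  rw [mul_pow, h1]
  cases s
  · simp
  · simp

theorem Ks_MQ {j : ℕ} (s : Fin j → Bool) (b : Fin j → ℕ)
    (h : Module.finrank ℚ (Ks s b) = 2 ^ j) : MQ j (Ks s b) := by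
  refine ⟨h, Set.range fun i => rt (s i) (b i), ?_, rfl⟩
  rintro _ ⟨i, rfl⟩
  exact ⟨(((if s i then -(b i : ℤ) else (b i : ℤ)) : ℤ) : ℚ), by
    rw [rt_sq, Rat.cast_intCast]⟩

/-- The largest `n` with `n ^ h ≤ X`. -/
def YY (h X : ℕ) : ℕ := Nat.findGreatest (fun n => n ^ h ≤ X) X

theorem YY_spec {h : ℕ} (hh : 1 ≤ h) (X : ℕ) : YY h X ^ h ≤ X := by
  have := Nat.findGreatest_spec (P := fun n => n ^ h ≤ X) (Nat.zero_le X)
    (by rw [zero_pow (by omega)]; exact Nat.zero_le X)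
  exact this

theorem YY_le {h : ℕ} (hh : 1 ≤ h) {n X : ℕ} (hn : n ^ h ≤ X) : n ≤ YY h X :=
  Nat.le_findGreatest (P := fun n => n ^ h ≤ X)
    ((Nat.le_self_pow (by omega) n).trans hn) hn

theorem pos_of_sf {j : ℕ} {a : Fin j → ℕ} (ha : ∀ i, Squarefree (a i) ∧ Odd (a i)) (i : Fin j) :
    0 < a i := by
  have := (ha i).1.ne_zero
  omega

/-- The upper bound: the tuples of a field of discriminant at most `X`. -/
theorem upper (hGMf : S_GMf) (hGDl : S_GDl) (j X : ℕ) (_hj : 2 ≤ j)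
    (K : IntermediateField ℚ ℂ) (hK : MQ j K) (hX : DLe K X) :
    ∃ (s E : Fin j → Bool) (a : Fin j → ℕ), a ∈ OS j (YY (2 ^ (j - 1)) X) ∧
      K = Ks s (fun i => em E i * a i) := by
  obtain ⟨s, e, a, he, ha, hKe⟩ := hGMf j K hK
  obtain ⟨hN, hd⟩ := hX
  obtain ⟨E, rfl⟩ := ex_em e he
  refine ⟨s, E, a, ⟨ha, ?_⟩, hKe⟩
  have h1 := @hGDl j s (em E) a K hN he ha hKe hK.1
  have h2 : NumberField.discr K ≠ 0 := NumberField.discr_ne_zero K
  have h3 : |((Finset.univ.lcm a : ℕ) : ℤ) ^ (2 ^ (j - 1))| ≤ |NumberField.discr K| := by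
    obtain ⟨c, hc⟩ := h1
    have hc0 : c ≠ 0 := by
      rintro rfl
      rw [mul_zero] at hc
      exact h2 hc
    rw [hc, abs_mul]
    exact le_mul_of_one_le_right (abs_nonneg _) (Int.one_le_abs hc0)
  have h4 := h3.trans hd
  rw [abs_of_nonneg (by positivity)] at h4
  exact YY_le Nat.one_le_two_pow (by exact_mod_cast h4)

/-- The lower bound: independent tuples give fields. -/
theorem lowerG (hGKd : S_GKd) (hGDv : S_GDv) (j X : ℕ) (_hj : 2 ≤ j) (a : Fin j → ℕ)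
    (ha : a ∈ OS j (YY (2 ^ (j - 1)) X))
    (hA : ∀ A : Finset (Fin j), A.Nonempty → ¬ IsSquare (∏ i ∈ A, a i)) :
    MQ j (Ks (sg a) a) ∧ DLe (Ks (sg a) a) X := by
  have hpos := pos_of_sf ha.1
  have hdeg := hGKd j (sg a) a hpos hA
  have hfd : FiniteDimensional ℚ (Ks (sg a) a) :=
    Module.finite_of_finrank_pos (by rw [hdeg]; positivity)
  have hN : NumberField (Ks (sg a) a) :=
    { to_charZero := inferInstance, to_finiteDimensional := inferInstance }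
  refine ⟨Ks_MQ _ _ hdeg, hN, ?_⟩
  have h1 := @hGDv j a (Ks (sg a) a) hN ha.1 rfl hdeg
  have hl0 : 0 < Finset.univ.lcm a := by
    have : Finset.univ.lcm a ≠ 0 := by
      rw [Ne, Finset.lcm_eq_zero_iff]
      rintro ⟨i, -, hi⟩
      have := hpos i
      omega
    omega
  have h2 : |NumberField.discr (Ks (sg a) a)| ≤
      ((Finset.univ.lcm a : ℕ) : ℤ) ^ (2 ^ (j - 1)) := by
    refine Int.le_of_dvd (by positivity) ?_
    rwa [abs_dvd]
  refine h2.trans ?_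
  have h3 : (Finset.univ.lcm a) ^ (2 ^ (j - 1)) ≤ X :=
    (Nat.pow_le_pow_left ha.2 _).trans (YY_spec Nat.one_le_two_pow X)
  exact_mod_cast h3

/-- A union over the signs and multipliers. -/
theorem union_le {j : ℕ} (T : (Fin j → Bool) × (Fin j → Bool) → Set (Fin j → ℕ))
    (hfin : ∀ p, (T p).Finite)
    (B : ℝ) (hB : ∀ p, ((T p).ncard : ℝ) ≤ B) (S : Set (IntermediateField ℚ ℂ))
    (f : (Fin j → Bool) × (Fin j → Bool) → (Fin j → ℕ) → IntermediateField ℚ ℂ)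
    (hS : S ⊆ ⋃ p, f p '' (T p)) : S.Finite ∧ (S.ncard : ℝ) ≤ 4 ^ j * B := by
  have h1 : (⋃ p, f p '' (T p)).Finite := Set.finite_iUnion fun p => (hfin p).image _
  refine ⟨h1.subset hS, ?_⟩
  have h2 : S.ncard ≤ ∑ p, (T p).ncard := by
    refine (Set.ncard_le_ncard hS h1).trans ((Set.ncard_iUnion_le_of_fintype _).trans ?_)
    exact Finset.sum_le_sum fun p _ => Set.ncard_image_le (hfin p)
  have h3 : ((∑ p, (T p).ncard : ℕ) : ℝ) ≤ 4 ^ j * B := by
    rw [Nat.cast_sum]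
    refine (Finset.sum_le_card_nsmul Finset.univ _ B fun p _ => hB p).trans ?_
    rw [Finset.card_univ, Fintype.card_prod, Fintype.card_fun, Fintype.card_bool,
      Fintype.card_fin, nsmul_eq_mul]
    push_cast
    rw [← mul_pow]
    norm_num
  exact le_trans (by exact_mod_cast h2) h3

/-- Fibres of the map from tuples to fields. -/
theorem fib_le (j : ℕ) (G : Set (Fin j → ℕ)) (hG : G.Finite)
    (f : (Fin j → ℕ) → IntermediateField ℚ ℂ) (S : Set (IntermediateField ℚ ℂ)) (hS : S.Finite)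
    (hf : ∀ a ∈ G, f a ∈ S) (n : ℕ)
    (hn : ∀ K ∈ S, {a | a ∈ G ∧ f a = K}.ncard ≤ n) : G.ncard ≤ n * S.ncard := by
  classical
  rw [Set.ncard_eq_toFinset_card G hG]
  refine (Finset.card_le_mul_card_image (f := f) hG.toFinset n ?_).trans ?_
  · intro K hK
    obtain ⟨a, ha, rfl⟩ := Finset.mem_image.1 hK
    rw [Set.Finite.mem_toFinset] at ha
    refine le_trans (le_of_eq ?_) (hn (f a) (hf a ha))
    rw [← Set.ncard_coe_finset]
    congr 1
    ext a'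
    simp
  · refine Nat.mul_le_mul_left n ?_
    rw [← Set.ncard_coe_finset]
    refine Set.ncard_le_ncard ?_ hS
    intro K hK
    rw [Finset.mem_coe, Finset.mem_image] at hK
    obtain ⟨a, ha, rfl⟩ := hK
    rw [Set.Finite.mem_toFinset] at ha
    exact hf a ha

end GFnAux

open GFnAux

theorem pGFn (h1 : S_GAv) (h2 : S_GDp) (h3 : S_GKd) (h4 : S_GBk) (h5 : S_GMf) (h6 : S_GNf)
    (h7 : S_GDl) (h8 : S_GDv) (h9 : S_GTl) : S_GFn := by
  intro j ε hj hε
  obtain ⟨ε', hε'⟩ : ∃ ε' : ℝ, ε' = ε / (4 ^ j * 2 ^ (j * j + 1)) := ⟨_, rfl⟩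
  have hε'0 : 0 < ε' := by
    rw [hε']
    positivity
  obtain ⟨Y1, hY1⟩ := h1 j ε' hj hε'0
  obtain ⟨Y2, hY2⟩ := h1 j (1 / 2) hj (by norm_num)
  obtain ⟨Y3, hY3⟩ := h9 j 1 hj
  obtain ⟨Y0, hY0⟩ : ∃ Y0, Y0 = max Y1 (max Y2 Y3) := ⟨_, rfl⟩
  refine ⟨Y0 ^ (2 ^ (j - 1)), ?_⟩
  intro X hX L hL halg
  obtain ⟨Y, hY⟩ : ∃ Y, Y = YY (2 ^ (j - 1)) X := ⟨_, rfl⟩
  have hYY : Y0 ≤ Y := by
    rw [hY]
    exact YY_le Nat.one_le_two_pow hX
  have hYa : Y1 ≤ Y := le_trans (by rw [hY0]; exact le_max_left _ _) hYY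
  have hYb : Y2 ≤ Y := le_trans (by rw [hY0]; exact (le_max_left _ _).trans (le_max_right _ _)) hYY
  have hYc : Y3 ≤ Y := le_trans (by rw [hY0]; exact (le_max_right _ _).trans (le_max_right _ _)) hYY
  have hOS : (OS j Y).Finite := (hY3 Y hYc).1
  obtain ⟨S, hS⟩ : ∃ S : Set (IntermediateField ℚ ℂ), S = {K | MQ j K ∧ DLe K X} := ⟨_, rfl⟩
  obtain ⟨f, hf⟩ : ∃ f : (Fin j → Bool) × (Fin j → Bool) → (Fin j → ℕ) → IntermediateField ℚ ℂ,
    f = fun p a => Ks p.1 (fun i => em p.2 i * a i) := ⟨_, rfl⟩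
  have hSfin : S.Finite := by
    refine (union_le (fun _ => OS j Y) (fun _ => hOS) ((OS j Y).ncard : ℝ) (fun _ => le_rfl) S f
      ?_).1
    intro K hK
    rw [hS] at hK
    obtain ⟨s, E, a, ha, hKa⟩ := upper h5 h7 j X hj K hK.1 hK.2
    rw [Set.mem_iUnion]
    exact ⟨(s, E), a, by rw [hY]; exact ha, by rw [hf]; exact hKa.symm⟩
  -- the bad fields
  have hBad : (Set.ncard {K : IntermediateField ℚ ℂ | MQ j K ∧ DLe K X ∧ BadK (2 ^ j) L K} : ℝ) ≤
      4 ^ j * (ε' * ((OS j Y).ncard : ℝ)) := by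
    refine (union_le (fun p => {a : Fin j → ℕ | a ∈ OS j Y ∧
      BadN (lm L p.1) (fun i => em p.2 i * a i)}) (fun p => hOS.subset fun a ha => ha.1) _
      (fun p => hY1 Y hYa (em p.2) (lm L p.1) (em_pos p.2) (lm_ne L hL p.1)) _ f ?_).2
    intro K hK
    obtain ⟨s, E, a, ha, hKa⟩ := upper h5 h7 j X hj K hK.1 hK.2.1
    rw [Set.mem_iUnion]
    refine ⟨(s, E), a, ⟨by rw [hY]; exact ha, ?_⟩, by rw [hf]; exact hKa.symm⟩
    have hdeg := hK.1.1
    have hbad := hK.2.2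
    rw [hKa] at hdeg hbad
    exact h4 j s (fun i => em E i * a i) L
      (fun i => Nat.mul_pos (em_pos E i) (pos_of_sf ha.1 i)) hdeg halg hbad
  -- the good tuples
  obtain ⟨G, hG⟩ : ∃ G : Set (Fin j → ℕ), G = {a | a ∈ OS j Y ∧
    ∀ A : Finset (Fin j), A.Nonempty → ¬ IsSquare (∏ i ∈ A, a i)} := ⟨_, rfl⟩
  have hGfin : G.Finite := by
    rw [hG]
    exact hOS.subset fun a ha => ha.1
  have hhalf : ((OS j Y).ncard : ℝ) ≤ 2 * (G.ncard : ℝ) := by
    have e1 := hY2 Y hYb (fun _ => 1) (fun _ => 1) (fun _ => one_pos) (fun _ => one_ne_zero)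
    have e2 : (OS j Y) ⊆ G ∪ {a : Fin j → ℕ | a ∈ OS j Y ∧
        BadN (fun _ => 1) (fun i => 1 * a i)} := by
      intro a ha
      by_cases hA : ∀ A : Finset (Fin j), A.Nonempty → ¬ IsSquare (∏ i ∈ A, a i)
      · left
        rw [hG]
        exact ⟨ha, hA⟩
      · right
        push Not at hA
        refine ⟨ha, ?_⟩
        simp only [one_mul]
        exact h2 j a hj (pos_of_sf ha.1) hA
    have e3 : ((OS j Y).ncard : ℝ) ≤ (G.ncard : ℝ) + ({a : Fin j → ℕ | a ∈ OS j Y ∧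
        BadN (fun _ => 1) (fun i => 1 * a i)}.ncard : ℝ) := by
      have := (Set.ncard_le_ncard e2 (hGfin.union (hOS.subset fun a ha => ha.1))).trans
        (Set.ncard_union_le _ _)
      exact_mod_cast this
    linarith
  have hGS : G.ncard ≤ 2 ^ (j * j) * S.ncard := by
    refine fib_le j G hGfin (fun a => Ks (sg a) a) S hSfin ?_ _ ?_
    · intro a ha
      rw [hG] at ha
      rw [hS]
      exact lowerG h3 h8 j X hj a (by rw [← hY]; exact ha.1) ha.2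
    · intro K hK
      rw [hS] at hK
      obtain ⟨g1, g2⟩ := h6 j K hK.1.1
      refine le_trans (Set.ncard_le_ncard ?_ g1) g2
      intro a ha
      rw [hG] at ha
      exact ⟨ha.1.1.1, ha.2⟩
  rw [← hS]
  refine ⟨hSfin, hBad.trans ?_⟩
  have hGS' : (G.ncard : ℝ) ≤ 2 ^ (j * j) * (S.ncard : ℝ) := by exact_mod_cast hGS
  calc 4 ^ j * (ε' * ((OS j Y).ncard : ℝ)) ≤ 4 ^ j * (ε' * (2 * (2 ^ (j * j) * (S.ncard : ℝ)))) := by
        refine mul_le_mul_of_nonneg_left ?_ (by positivity)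
        refine mul_le_mul_of_nonneg_left ?_ hε'0.le
        linarith
    _ = ε * (S.ncard : ℝ) := by
        rw [hε', pow_succ]
        field_simp

end Pool.Agent.SMQ
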