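import Pool.Agent.Lib.MP_452a87_nt.SpecG

/-!
# Part G: `S_GKd`, the degree of `Ks s b`
-/

set_option autoImplicit false

namespace Pool.Agent.SMQ

open IntermediateField

namespace GKdAux

theorem sd_single {j : ℕ} (A : Finset (Fin j)) :
    sd A (fun i : Fin j => ({i} : Finset (Fin j))) = A := by
  ext i
  rw [sd, Finset.mem_filter]
  by_cases hi : i ∈ A
  · have h5 : A.filter (fun i' => i ∈ ({i'} : Finset (Fin j))) = {i} := by
      ext l
      rw [Finset.mem_filter, Finset.mem_singleton, Finset.mem_singleton]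
      constructor
      · rintro ⟨_, h⟩
        exact h.symm
      · rintro rfl
        exact ⟨hi, rfl⟩
    rw [h5, Finset.card_singleton]
    exact ⟨fun _ => hi, fun _ => ⟨Finset.mem_univ i, odd_one⟩⟩
  · have h5 : A.filter (fun i' => i ∈ ({i'} : Finset (Fin j))) = ∅ := by
      rw [Finset.filter_eq_empty_iff]
      intro l hl h
      rw [Finset.mem_singleton] at h
      exact hi (h ▸ hl)
    rw [h5, Finset.card_empty]
    exact ⟨fun h => absurd h.2 (by decide), fun h => absurd h hi⟩

theorem fre_single (j : ℕ) : Fre (fun i : Fin j => ({i} : Finset (Fin j))) := by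
  intro A hA h
  rw [sd_single] at h
  exact hA.ne_empty h

theorem KX_single {j : ℕ} (r : Fin j → ℂ) :
    KX r (fun i : Fin j => ({i} : Finset (Fin j))) = adjoin ℚ (Set.range r) := by
  rw [KX]
  congr 1
  ext z
  constructor
  · rintro ⟨i, rfl⟩
    exact ⟨i, by simp [rho]⟩
  · rintro ⟨i, rfl⟩
    exact ⟨i, by simp [rho]⟩

theorem rt_sq (s : Bool) (b : ℕ) : rt s b ^ 2 = (((if s then -(b : ℤ) else (b : ℤ)) : ℤ) : ℂ) := by
  unfold rt
  have h1 : (((Real.sqrt (b : ℝ) : ℝ) : ℂ)) ^ 2 = (b : ℂ) := by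
    rw [← Complex.ofReal_pow, Real.sq_sqrt (Nat.cast_nonneg b)]
    push_cast
    rfl
  rw [mul_pow, h1]
  cases s
  · simp
  · simp

end GKdAux

open GKdAux

theorem pGKd (h1 : S_FB) : S_GKd := by
  intro j s b _ hA
  have hR : Rts (fun i => rt (s i) (b i)) (fun i => if s i then -(b i : ℤ) else (b i : ℤ)) := by
    refine ⟨fun l => rt_sq (s l) (b l), ?_⟩
    rintro X hX ⟨t, ht⟩
    apply hA X hX
    refine ⟨t.natAbs, ?_⟩
    rw [← Int.natAbs_mul, ← ht]
    have e := map_prod Int.natAbsHom (fun i => if s i then -(b i : ℤ) else (b i : ℤ)) X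
    refine Eq.trans ?_ e.symm
    refine Finset.prod_congr rfl fun i _ => ?_
    show b i = Int.natAbs (if s i then -(b i : ℤ) else (b i : ℤ))
    split_ifs
    · rw [Int.natAbs_neg, Int.natAbs_natCast]
    · rw [Int.natAbs_natCast]
  have h2 := ((h1 j j _ _ (fun i : Fin j => ({i} : Finset (Fin j))) hR).2.1).2 (fre_single j)
  rw [KX_single] at h2
  exact h2

end Pool.Agent.SMQ
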