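import Pool.Agent.Lib.MP_452a87_nt.SpecG

/-!
# Part G: `S_GMf`, the normal form of a multiquadratic field
-/

set_option autoImplicit false

namespace Pool.Agent.SMQ

open IntermediateField

namespace GMfAux

theorem rt_sq (s : Bool) (b : ℕ) : rt s b ^ 2 = (((if s then -(b : ℤ) else (b : ℤ)) : ℤ) : ℂ) := by
  unfold rt
  have h1 : (((Real.sqrt (b : ℝ) : ℝ) : ℂ)) ^ 2 = (b : ℂ) := by
    rw [← Complex.ofReal_pow, Real.sq_sqrt (Nat.cast_nonneg b)]
    push_cast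
    rfl
  rw [mul_pow, h1]
  cases s
  · simp
  · simp

theorem split_two (u : ℕ) (hu : Squarefree u) :
    ∃ e a : ℕ, (e = 1 ∨ e = 2) ∧ Squarefree a ∧ Odd a ∧ u = e * a := by
  rcases Nat.even_or_odd u with h | h
  · obtain ⟨a, ha⟩ := h.two_dvd
    refine ⟨2, a, Or.inr rfl, ?_, ?_, ha⟩
    · refine Squarefree.squarefree_of_dvd ?_ hu
      rw [ha]
      exact dvd_mul_left a 2
    · rw [← Nat.not_even_iff_odd]
      intro h2
      obtain ⟨c, hc⟩ := h2.two_dvd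
      have h3 : 2 * 2 ∣ u := ⟨c, by rw [ha, hc]; ring⟩
      have h4 := hu 2 h3
      rw [Nat.isUnit_iff] at h4
      omega
  · exact ⟨1, u, Or.inl rfl, hu, h, (one_mul u).symm⟩

theorem nf_one (r : ℂ) (a0 : ℤ) (h0 : a0 ≠ 0) (hr : r ^ 2 = (a0 : ℂ)) :
    ∃ (s : Bool) (e a t : ℕ), t ≠ 0 ∧ (e = 1 ∨ e = 2) ∧ (Squarefree a ∧ Odd a) ∧
      (r = t * rt s (e * a) ∨ r = -(t * rt s (e * a))) := by
  obtain ⟨u, t, htu, hu⟩ := Nat.sq_mul_squarefree a0.natAbs
  obtain ⟨e, a, he, ha, hao, hea⟩ := split_two u hu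
  have ht : t ≠ 0 := by
    rintro rfl
    rw [zero_pow (by norm_num), zero_mul] at htu
    exact h0 (Int.natAbs_eq_zero.1 htu.symm)
  have key : ∃ s : Bool, (a0 : ℂ) = ((t : ℂ) * rt s (e * a)) ^ 2 := by
    have hnat : ((a0.natAbs : ℕ) : ℂ) = (t : ℂ) ^ 2 * ((e * a : ℕ) : ℂ) := by
      rw [← htu, hea]
      push_cast
      ring
    rcases Int.natAbs_eq a0 with h | h
    · refine ⟨false, ?_⟩
      rw [mul_pow, rt_sq]
      have h2 : (a0 : ℂ) = ((a0.natAbs : ℕ) : ℂ) := by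
        have := congrArg (fun z : ℤ => (z : ℂ)) h
        simpa using this
      rw [h2, hnat]
      simp
    · refine ⟨true, ?_⟩
      rw [mul_pow, rt_sq]
      have h2 : (a0 : ℂ) = -((a0.natAbs : ℕ) : ℂ) := by
        have := congrArg (fun z : ℤ => (z : ℂ)) h
        simpa using this
      rw [h2, hnat]
      simp
  obtain ⟨s, hs⟩ := key
  refine ⟨s, e, a, t, ht, he, ⟨ha, hao⟩, ?_⟩
  rw [hs] at hr
  exact sq_eq_sq_iff_eq_or_eq_neg.mp hr

end GMfAux

open GMfAux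

theorem pGMf (h1 : S_FR) : S_GMf := by
  intro j K hK
  obtain ⟨hdeg, S, hS, hKS⟩ := hK
  rw [hKS] at hdeg
  obtain ⟨r, a0, hR, hr⟩ := h1 j S hS hdeg
  have ha0 : ∀ i, a0 i ≠ 0 := by
    intro i h
    apply hR.2 {i} (Finset.singleton_nonempty i)
    rw [Finset.prod_singleton, h]
    exact ⟨0, by norm_num⟩
  choose s e a t ht he ha hrt using fun i => nf_one (r i) (a0 i) (ha0 i) (hR.1 i)
  refine ⟨s, e, a, he, ha, ?_⟩
  rw [hKS, hr]
  unfold Ks
  refine le_antisymm ?_ ?_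
  · rw [adjoin_le_iff]
    rintro _ ⟨i, rfl⟩
    have h2 : (t i : ℂ) * rt (s i) (e i * a i) ∈
        adjoin ℚ (Set.range fun i => rt (s i) (e i * a i)) :=
      mul_mem (_root_.natCast_mem _ _) (subset_adjoin ℚ _ ⟨i, rfl⟩)
    rcases hrt i with h | h
    · rw [h]
      exact h2
    · rw [h]
      exact neg_mem h2
  · rw [adjoin_le_iff]
    rintro _ ⟨i, rfl⟩
    have ht0 : (t i : ℂ) ≠ 0 := by exact_mod_cast ht i
    have h3 : r i ∈ adjoin ℚ (Set.range r) := subset_adjoin ℚ _ ⟨i, rfl⟩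
    have h4 : (t i : ℂ)⁻¹ ∈ adjoin ℚ (Set.range r) := inv_mem (_root_.natCast_mem _ _)
    rcases hrt i with h | h
    · have h5 : rt (s i) (e i * a i) = (t i : ℂ)⁻¹ * r i := by
        rw [h, inv_mul_cancel_left₀ ht0]
      show rt (s i) (e i * a i) ∈ _
      rw [h5]
      exact mul_mem h4 h3
    · have h5 : rt (s i) (e i * a i) = (t i : ℂ)⁻¹ * -(r i) := by
        rw [h, neg_neg, inv_mul_cancel_left₀ ht0]
      show rt (s i) (e i * a i) ∈ _
      rw [h5]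
      exact mul_mem h4 (neg_mem h3)

end Pool.Agent.SMQ
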