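import Pool.Agent.Lib.MP_452a87_nt.SpecG

/-!
# MP_452a87_nt, G/GNf: a field has few tuples
-/

set_option autoImplicit false

namespace Pool.Agent.SMQ

namespace GNfAux

lemma rt_sq (s : Bool) (b : ℕ) : rt s b ^ 2 = ((if s then -(b : ℤ) else (b : ℤ) : ℤ) : ℂ) := by
  have h1 : ((Real.sqrt (b : ℝ) : ℝ) : ℂ) ^ 2 = (b : ℂ) := by
    rw [← Complex.ofReal_pow, Real.sq_sqrt (Nat.cast_nonneg b)]
    simp
  cases s
  · simp [rt, h1]
  · simp [rt, mul_pow, h1]

lemma sd_single {j : ℕ} (A : Finset (Fin j)) : sd A (fun i => ({i} : Finset (Fin j))) = A := by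
  ext l
  simp only [sd, Finset.mem_filter, Finset.mem_univ, true_and, Finset.mem_singleton]
  by_cases h : l ∈ A
  · have : A.filter (fun i => l = i) = {l} := by
      ext i
      simp only [Finset.mem_filter, Finset.mem_singleton]
      constructor
      · rintro ⟨-, rfl⟩; rfl
      · rintro rfl; exact ⟨h, rfl⟩
    rw [this]
    simp [h]
  · have : A.filter (fun i => l = i) = ∅ := by
      ext i
      simp only [Finset.mem_filter, Finset.notMem_empty, iff_false, not_and]
      rintro hi rfl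
      exact h hi
    rw [this]
    simp [h]

lemma fre_single (j : ℕ) : Fre (fun i : Fin j => ({i} : Finset (Fin j))) := by
  intro A hA
  rw [sd_single]
  exact hA.ne_empty

lemma KX_single {j : ℕ} (r : Fin j → ℂ) :
    KX r (fun i : Fin j => ({i} : Finset (Fin j))) = IntermediateField.adjoin ℚ (Set.range r) := by
  unfold KX rho
  simp

/-- Squarefree numbers whose product is a square are equal. -/
lemma eq_of_sq {b b' s : ℕ} (hb : Squarefree b) (hb' : Squarefree b') (h : b * b' = s ^ 2) :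
    b = b' := by
  have hb0 : b ≠ 0 := hb.ne_zero
  have hb'0 : b' ≠ 0 := hb'.ne_zero
  apply Nat.eq_of_factorization_eq hb0 hb'0
  intro p
  have h1 := congrArg (fun n => n.factorization p) h
  simp only [Nat.factorization_mul hb0 hb'0, Nat.factorization_pow, Finsupp.coe_add,
    Pi.add_apply, Finsupp.smul_apply, smul_eq_mul] at h1
  have h2 := hb.natFactorization_le_one p
  have h3 := hb'.natFactorization_le_one p
  omega

/-- The signed number. -/
def st (b : ℕ) : ℤ := if decide (b % 4 = 3) then -(b : ℤ) else (b : ℤ)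

lemma st_natAbs (b : ℕ) : (st b).natAbs = b := by
  unfold st
  split_ifs <;> simp

lemma sq_of {b b' : ℕ} {P : ℤ} (hP : P ≠ 0) (hb : Squarefree b) (hb' : Squarefree b')
    (h : IsSquare (st b * P)) (h' : IsSquare (st b' * P)) : b = b' := by
  obtain ⟨t, ht⟩ := h
  obtain ⟨t', ht'⟩ := h'
  have h1 : (t * t') ^ 2 = st b * st b' * P ^ 2 := by
    calc (t * t') ^ 2 = (t * t) * (t' * t') := by ring
      _ = st b * st b' * P ^ 2 := by rw [← ht, ← ht']; ring
  have h2 : P ^ 2 ∣ (t * t') ^ 2 := ⟨st b * st b', by rw [h1]; ring⟩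
  obtain ⟨u, hu⟩ := (Int.pow_dvd_pow_iff two_ne_zero).1 h2
  have h3 : st b * st b' = u ^ 2 := by
    have h4 : P ^ 2 * (st b * st b') = P ^ 2 * u ^ 2 := by
      rw [← mul_pow, ← hu, h1]; ring
    exact mul_left_cancel₀ (pow_ne_zero 2 hP) h4
  have h5 := congrArg Int.natAbs h3
  rw [Int.natAbs_mul, st_natAbs, st_natAbs, Int.natAbs_pow] at h5
  exact eq_of_sq hb hb' h5

/-- The index set of an element of the field. -/
lemma exists_idx (hFB : S_FB) {j : ℕ} {K : IntermediateField ℚ ℂ}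
    (hK : Module.finrank ℚ K = 2 ^ j) {r : Fin j → ℂ} {a : Fin j → ℤ} (hr : Rts r a)
    (hrK : IntermediateField.adjoin ℚ (Set.range r) = K) {b : ℕ}
    (hb : rt (decide (b % 4 = 3)) b ∈ K) :
    ∃ A : Finset (Fin j), IsSquare (st b * ∏ i ∈ A, a i) := by
  classical
  set z := rt (decide (b % 4 = 3)) b with hz
  set r' : Fin (j + 1) → ℂ := Fin.cons z r with hr'
  set a' : Fin (j + 1) → ℤ := Fin.cons (st b) a with ha'
  have hK' : IntermediateField.adjoin ℚ (Set.range r') = K := by
    apply le_antisymm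
    · rw [IntermediateField.adjoin_le_iff]
      rintro _ ⟨i, rfl⟩
      refine Fin.cases ?_ (fun i => ?_) i
      · simpa [hr'] using hb
      · have : r i ∈ IntermediateField.adjoin ℚ (Set.range r) :=
          IntermediateField.subset_adjoin _ _ ⟨i, rfl⟩
        rw [hrK] at this
        simpa [hr'] using this
    · rw [← hrK, IntermediateField.adjoin_le_iff]
      rintro _ ⟨i, rfl⟩
      exact IntermediateField.subset_adjoin _ _ ⟨i.succ, by simp [hr']⟩
  have hnot : ¬ Rts r' a' := by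
    intro hR
    have h1 := (hFB (j + 1) (j + 1) r' a' (fun i => {i}) hR).2.1.2 (fre_single _)
    rw [KX_single, hK', hK] at h1
    exact absurd (Nat.pow_right_injective le_rfl h1) (by omega)
  have hsq : ∀ l, r' l ^ 2 = (a' l : ℂ) := by
    intro l
    refine Fin.cases ?_ (fun i => ?_) l
    · simp only [hr', ha', Fin.cons_zero]
      exact rt_sq _ _
    · simp only [hr', ha', Fin.cons_succ]
      exact hr.1 i
  obtain ⟨X, hX, hXs⟩ : ∃ X : Finset (Fin (j + 1)), X.Nonempty ∧ IsSquare (∏ l ∈ X, a' l) := by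
    by_contra hcon
    push Not at hcon
    exact hnot ⟨hsq, hcon⟩
  set A : Finset (Fin j) := Finset.univ.filter (fun i => i.succ ∈ X) with hA
  have hAmap : A.map (Fin.succEmb j) = X.erase 0 := by
    ext l
    simp only [Finset.mem_map, Finset.mem_erase, hA, Finset.mem_filter, Finset.mem_univ,
      true_and, Fin.coe_succEmb]
    constructor
    · rintro ⟨i, hi, rfl⟩
      exact ⟨Fin.succ_ne_zero i, hi⟩
    · rintro ⟨h0, hl⟩
      obtain ⟨i, rfl⟩ := Fin.exists_succ_eq.2 h0
      exact ⟨i, hl, rfl⟩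
  have hprod : ∏ l ∈ X.erase 0, a' l = ∏ i ∈ A, a i := by
    rw [← hAmap, Finset.prod_map]
    refine Finset.prod_congr rfl fun i _ => ?_
    simp [ha']
  by_cases h0 : (0 : Fin (j + 1)) ∈ X
  · refine ⟨A, ?_⟩
    rw [← Finset.mul_prod_erase X a' h0, hprod] at hXs
    simpa [ha'] using hXs
  · exfalso
    rw [← Finset.erase_eq_of_notMem h0, hprod] at hXs
    refine hr.2 A ?_ hXs
    obtain ⟨l, hl⟩ := hX
    have hl0 : l ≠ 0 := fun h => h0 (h ▸ hl)
    obtain ⟨i, rfl⟩ := Fin.exists_succ_eq.2 hl0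
    exact ⟨i, by simp [hA, hl]⟩

end GNfAux

open GNfAux in
theorem pGNf (hRt : S_GRt) (hFB : S_FB) (_hSd : S_Sdd) : S_GNf := by
  classical
  intro j K hK
  set T := {a : Fin j → ℕ | (∀ i, Squarefree (a i) ∧ Odd (a i)) ∧ Ks (sg a) a = K} with hT
  rcases T.eq_empty_or_nonempty with hTe | ⟨a0, ha0, ha0K⟩
  · rw [hTe]
    simp
  have hpos : ∀ i, 0 < a0 i := fun i => Nat.pos_of_ne_zero (ha0 i).1.ne_zero
  have hR : Rts (fun i => rt (sg a0 i) (a0 i)) (fun i => st (a0 i)) :=
    hRt j (sg a0) a0 hpos (by rw [ha0K]; exact hK)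
  have hKr : IntermediateField.adjoin ℚ (Set.range fun i => rt (sg a0 i) (a0 i)) = K := ha0K
  have hex : ∀ b : ℕ, ∃ A : Finset (Fin j), rt (decide (b % 4 = 3)) b ∈ K →
      IsSquare (st b * ∏ i ∈ A, st (a0 i)) := by
    intro b
    by_cases hb : rt (decide (b % 4 = 3)) b ∈ K
    · obtain ⟨A, hA⟩ := exists_idx hFB hK hR hKr hb
      exact ⟨A, fun _ => hA⟩
    · exact ⟨∅, fun h => absurd h hb⟩
  choose idx hidx using hex
  have hne : ∀ A : Finset (Fin j), ∏ i ∈ A, st (a0 i) ≠ 0 := by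
    intro A
    refine Finset.prod_ne_zero_iff.2 fun i _ h => ?_
    have h1 := st_natAbs (a0 i)
    rw [h] at h1
    have := hpos i
    simp at h1
    omega
  have hmem : ∀ a ∈ T, ∀ i, rt (decide (a i % 4 = 3)) (a i) ∈ K := by
    rintro a ⟨ha, haK⟩ i
    rw [← haK]
    exact IntermediateField.subset_adjoin _ _ ⟨i, rfl⟩
  have hinj : Set.InjOn (fun (a : Fin j → ℕ) (i : Fin j) => idx (a i)) T := by
    intro a ha a' ha' h
    funext i
    have h1 : idx (a i) = idx (a' i) := congrFun h i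
    refine sq_of (hne (idx (a i))) (ha.1 i).1 (ha'.1 i).1 (hidx _ (hmem a ha i)) ?_
    rw [h1]
    exact hidx _ (hmem a' ha' i)
  have hfin : T.Finite := Set.Finite.of_injOn (t := Set.univ) (fun a _ => Set.mem_univ _) hinj
    Set.finite_univ
  refine ⟨hfin, ?_⟩
  have h1 := Set.ncard_le_ncard_of_injOn (t := (Set.univ : Set (Fin j → Finset (Fin j))))
    (fun (a : Fin j → ℕ) (i : Fin j) => idx (a i)) (fun a _ => Set.mem_univ _) hinj
    Set.finite_univ
  refine h1.trans (le_of_eq ?_)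
  rw [Set.ncard_univ, Nat.card_eq_fintype_card]
  simp [pow_mul]

end Pool.Agent.SMQ
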