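import Pool.Agent.Lib.MP_452a87_nt.SpecG

/-!
# Part G: `S_GRt`, the generators of a field of full degree
-/

set_option autoImplicit false

namespace Pool.Agent.SMQ

open IntermediateField

namespace GRtAux

theorem deg_one (x : ℂ) (h : ∃ q : ℚ, x ^ 2 = (q : ℂ)) :
    Module.finrank ℚ (adjoin ℚ {x}) ≤ 2 := by
  obtain ⟨q, hq⟩ := h
  have hmon : (Polynomial.X ^ 2 - Polynomial.C q : Polynomial ℚ).Monic :=
    Polynomial.monic_X_pow_sub_C q (by norm_num)
  have hroot : Polynomial.aeval x (Polynomial.X ^ 2 - Polynomial.C q : Polynomial ℚ) = 0 := by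
    rw [map_sub, map_pow, Polynomial.aeval_X, Polynomial.aeval_C, hq]
    exact sub_self _
  have hint : IsIntegral ℚ x := ⟨_, hmon, hroot⟩
  rw [adjoin.finrank hint]
  refine (Polynomial.natDegree_le_natDegree (minpoly.min ℚ x hmon hroot)).trans ?_
  rw [Polynomial.natDegree_X_pow_sub_C]

theorem deg_le (T : Finset ℂ) (hT : ∀ x ∈ T, ∃ q : ℚ, x ^ 2 = (q : ℂ)) :
    Module.finrank ℚ (adjoin ℚ (T : Set ℂ)) ≤ 2 ^ T.card := by
  classical
  induction T using Finset.induction_on with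
  | empty =>
    rw [Finset.coe_empty, adjoin_empty, Finset.card_empty, pow_zero]
    exact le_of_eq IntermediateField.finrank_bot
  | insert x T hx ih =>
    have h1 := ih fun y hy => hT y (Finset.mem_insert_of_mem hy)
    have h2 := deg_one x (hT x (Finset.mem_insert_self _ _))
    have h3 : adjoin ℚ ((insert x T : Finset ℂ) : Set ℂ) = adjoin ℚ {x} ⊔ adjoin ℚ (T : Set ℂ) := by
      rw [Finset.coe_insert, Set.insert_eq, adjoin_union]
    rw [h3, Finset.card_insert_of_notMem hx, pow_succ]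
    refine (finrank_sup_le _ _).trans ?_
    rw [mul_comm]
    exact Nat.mul_le_mul h1 h2

theorem rt_sq (s : Bool) (b : ℕ) : rt s b ^ 2 = (((if s then -(b : ℤ) else (b : ℤ)) : ℤ) : ℂ) := by
  unfold rt
  have h1 : (((Real.sqrt (b : ℝ) : ℝ) : ℂ)) ^ 2 = (b : ℂ) := by
    rw [← Complex.ofReal_pow, Real.sq_sqrt (Nat.cast_nonneg b)]
    push_cast
    rfl
  rw [mul_pow, h1]
  cases s
  · simp
  · simp

theorem rt_ne (s : Bool) (b : ℕ) (hb : 0 < b) : rt s b ≠ 0 := by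
  intro h
  have h1 := rt_sq s b
  rw [h] at h1
  have h2 : ((if s then -(b : ℤ) else (b : ℤ)) : ℤ) = 0 := by
    have h3 : (((if s then -(b : ℤ) else (b : ℤ)) : ℤ) : ℂ) = 0 := by
      rw [← h1]
      norm_num
    exact_mod_cast h3
  split_ifs at h2 <;> omega

end GRtAux

open GRtAux

theorem pGRt : S_GRt := by
  classical
  intro j s b hb hdeg
  refine ⟨fun l => rt_sq (s l) (b l), ?_⟩
  rintro X ⟨i0, hi0⟩ ⟨t, ht⟩
  obtain ⟨T, hT⟩ : ∃ T : Finset ℂ, T = (Finset.univ.erase i0).image fun i => rt (s i) (b i) :=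
    ⟨_, rfl⟩
  have hmem : ∀ i, i ≠ i0 → rt (s i) (b i) ∈ adjoin ℚ (T : Set ℂ) := by
    intro i hi
    refine subset_adjoin ℚ _ ?_
    rw [hT, Finset.mem_coe, Finset.mem_image]
    exact ⟨i, Finset.mem_erase.2 ⟨hi, Finset.mem_univ _⟩, rfl⟩
  have h1 : (∏ i ∈ X, rt (s i) (b i)) ^ 2 = (t : ℂ) ^ 2 := by
    rw [← Finset.prod_pow]
    have h2 : ∏ i ∈ X, rt (s i) (b i) ^ 2 =
        ((∏ i ∈ X, (if s i then -(b i : ℤ) else (b i : ℤ)) : ℤ) : ℂ) := by
      rw [Int.cast_prod]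
      exact Finset.prod_congr rfl fun i _ => rt_sq (s i) (b i)
    rw [h2, ht]
    push_cast
    ring
  have h3 : ∏ i ∈ X, rt (s i) (b i) ∈ adjoin ℚ (T : Set ℂ) := by
    rcases sq_eq_sq_iff_eq_or_eq_neg.mp h1 with h | h
    · rw [h]
      exact _root_.intCast_mem _ _
    · rw [h]
      exact neg_mem (_root_.intCast_mem _ _)
  have h4 : ∏ i ∈ X.erase i0, rt (s i) (b i) ∈ adjoin ℚ (T : Set ℂ) :=
    prod_mem fun i hi => hmem i (Finset.ne_of_mem_erase hi)
  have h5 : ∏ i ∈ X.erase i0, rt (s i) (b i) ≠ 0 :=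
    Finset.prod_ne_zero_iff.mpr fun i _ => rt_ne _ _ (hb i)
  have h6 : rt (s i0) (b i0) ∈ adjoin ℚ (T : Set ℂ) := by
    have h7 : rt (s i0) (b i0) = (∏ i ∈ X, rt (s i) (b i)) *
        (∏ i ∈ X.erase i0, rt (s i) (b i))⁻¹ := by
      rw [← Finset.mul_prod_erase X (fun i => rt (s i) (b i)) hi0, mul_assoc, mul_inv_cancel₀ h5,
        mul_one]
    rw [h7]
    exact mul_mem h3 (inv_mem h4)
  have h8 : Ks s b = adjoin ℚ (T : Set ℂ) := by
    unfold Ks
    refine le_antisymm ?_ ?_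
    · rw [adjoin_le_iff]
      rintro _ ⟨i, rfl⟩
      by_cases hi : i = i0
      · rw [hi]
        exact h6
      · exact hmem i hi
    · refine adjoin.mono ℚ _ _ ?_
      intro y hy
      rw [hT, Finset.mem_coe, Finset.mem_image] at hy
      obtain ⟨i, _, rfl⟩ := hy
      exact ⟨i, rfl⟩
  have h9 := deg_le T (fun x hx => by
    rw [hT, Finset.mem_image] at hx
    obtain ⟨i, _, rfl⟩ := hx
    exact ⟨(((if s i then -(b i : ℤ) else (b i : ℤ)) : ℤ) : ℚ), by
      rw [rt_sq, Rat.cast_intCast]⟩)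
  rw [← h8, hdeg] at h9
  have h10 : T.card ≤ j - 1 := by
    rw [hT]
    refine Finset.card_image_le.trans ?_
    rw [Finset.card_erase_of_mem (Finset.mem_univ _), Finset.card_univ, Fintype.card_fin]
  have h11 : (2 : ℕ) ^ T.card ≤ 2 ^ (j - 1) := Nat.pow_le_pow_right (by norm_num) h10
  have hj : 0 < j := Fin.pos i0
  have h12 : (2 : ℕ) ^ (j - 1) < 2 ^ j := Nat.pow_lt_pow_right (by norm_num) (by omega)
  omega

end Pool.Agent.SMQ
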