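import Pool.Agent.Lib.MP_452a87_nt.SpecG

/-!
# 452a87 G/GTl: many tuples

The number of odd squarefree `m ≤ Z` is at least `Z / 8`; the tuples `(m, q, 1, …)` with `q` in a fixed set of odd primes
and `m ≤ Y / q` are in `OS j Y`.
-/

set_option autoImplicit false

namespace Pool.Agent.SMQ

open Finset

namespace GTlAux

theorem sum_sq (n : ℕ) (hn : 2 ≤ n) :
    ∑ d ∈ Icc 2 n, (1 : ℝ) / ((d : ℝ) * d) ≤ 3 / 4 - 1 / n := by
  induction n, hn using Nat.le_induction with
  | base =>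
    rw [Icc_self, sum_singleton]
    norm_num
  | succ n hn ih =>
    rw [Finset.sum_Icc_succ_top (by omega)]
    have h0 : (0 : ℝ) < n := by
      have : 0 < n := by omega
      exact_mod_cast this
    have h1 : (1 : ℝ) / (((n + 1 : ℕ) : ℝ) * ((n + 1 : ℕ) : ℝ)) ≤ 1 / n - 1 / ((n + 1 : ℕ) : ℝ) := by
      push_cast
      rw [div_sub_div _ _ h0.ne' (by positivity), div_le_div_iff₀ (by positivity) (by positivity)]
      nlinarith
    linarith

theorem sum_sq' (n : ℕ) : ∑ d ∈ Icc 2 n, (1 : ℝ) / ((d : ℝ) * d) ≤ 3 / 4 := by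
  by_cases hn : 2 ≤ n
  · have h1 := sum_sq n hn
    have h2 : (0 : ℝ) ≤ 1 / n := by positivity
    linarith
  · rw [Icc_eq_empty (by omega), sum_empty]
    norm_num

/-- The number of squarefree numbers. -/
theorem sqf (Z : ℕ) : (Z : ℝ) / 4 ≤ (((Ioc 0 Z).filter Squarefree).card : ℝ) := by
  classical
  have hsub : Ioc 0 Z ⊆ (Ioc 0 Z).filter Squarefree ∪
      (Icc 2 Z).biUnion (fun d => (Ioc 0 Z).filter (fun m => d * d ∣ m)) := by
    intro m hm
    rw [mem_union, mem_filter, mem_biUnion]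
    by_cases hs : Squarefree m
    · exact Or.inl ⟨hm, hs⟩
    · right
      unfold Squarefree at hs
      push Not at hs
      obtain ⟨x, hx, hxu⟩ := hs
      rw [mem_Ioc] at hm
      have hx0 : x ≠ 0 := by
        rintro rfl
        rw [zero_mul, zero_dvd_iff] at hx
        omega
      have hx1 : x ≠ 1 := fun h => hxu (by rw [h]; exact isUnit_one)
      have hle := Nat.le_of_dvd hm.1 hx
      have hxx : x ≤ x * x := Nat.le_mul_self x
      exact ⟨x, mem_Icc.2 ⟨by omega, by omega⟩, mem_filter.2 ⟨mem_Ioc.2 hm, hx⟩⟩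
  have h1 := (card_le_card hsub).trans (card_union_le _ _)
  rw [Nat.card_Ioc, Nat.sub_zero] at h1
  have h2 : ((Icc 2 Z).biUnion (fun d => (Ioc 0 Z).filter (fun m => d * d ∣ m))).card ≤
      ∑ d ∈ Icc 2 Z, Z / (d * d) := by
    refine card_biUnion_le.trans (sum_le_sum fun d _ => ?_)
    rw [Nat.Ioc_filter_dvd_card_eq_div]
  have h3 : ((∑ d ∈ Icc 2 Z, Z / (d * d) : ℕ) : ℝ) ≤ Z * (3 / 4) := by
    push_cast
    calc ∑ d ∈ Icc 2 Z, ((Z / (d * d) : ℕ) : ℝ) ≤
        ∑ d ∈ Icc 2 Z, (Z : ℝ) * (1 / ((d : ℝ) * d)) := by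
          refine sum_le_sum fun d _ => ?_
          have := @Nat.cast_div_le ℝ _ _ _ Z (d * d)
          push_cast at this
          rw [mul_one_div]
          exact this
      _ = (Z : ℝ) * ∑ d ∈ Icc 2 Z, (1 : ℝ) / ((d : ℝ) * d) := by rw [mul_sum]
      _ ≤ Z * (3 / 4) := mul_le_mul_of_nonneg_left (sum_sq' Z) (by positivity)
  have h4 : (Z : ℝ) ≤ (((Ioc 0 Z).filter Squarefree).card : ℝ) +
      ((∑ d ∈ Icc 2 Z, Z / (d * d) : ℕ) : ℝ) := by
    have := h1.trans (Nat.add_le_add_left h2 _)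
    exact_mod_cast this
  linarith

/-- The number of odd squarefree numbers. -/
theorem osqf (Z : ℕ) :
    (Z : ℝ) / 8 ≤ (((Ioc 0 Z).filter (fun m => Squarefree m ∧ Odd m)).card : ℝ) := by
  classical
  have h1 : ((Ioc 0 Z).filter Squarefree).card ≤
      ((Ioc 0 Z).filter (fun m => Squarefree m ∧ Odd m)).card +
      ((Ioc 0 Z).filter (fun m => Squarefree m ∧ ¬ Odd m)).card := by
    refine (card_le_card ?_).trans (card_union_le _ _)
    intro m hm
    rw [mem_filter] at hm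
    rw [mem_union, mem_filter, mem_filter]
    by_cases ho : Odd m
    · exact Or.inl ⟨hm.1, hm.2, ho⟩
    · exact Or.inr ⟨hm.1, hm.2, ho⟩
  have h2 : ((Ioc 0 Z).filter (fun m => Squarefree m ∧ ¬ Odd m)).card ≤
      ((Ioc 0 Z).filter (fun m => Squarefree m ∧ Odd m)).card := by
    refine card_le_card_of_injOn (fun m => m / 2) ?_ ?_
    · intro m hm
      rw [mem_coe, mem_filter, mem_Ioc, Nat.not_odd_iff_even] at hm
      obtain ⟨⟨h0, hZ⟩, hs, ⟨k, rfl⟩⟩ := hm
      rw [mem_coe, mem_filter, mem_Ioc]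
      have e : (k + k) / 2 = k := by omega
      show (0 < (k + k) / 2 ∧ (k + k) / 2 ≤ Z) ∧ Squarefree ((k + k) / 2) ∧ Odd ((k + k) / 2)
      rw [e]
      refine ⟨⟨by omega, by omega⟩, hs.squarefree_of_dvd ⟨2, by ring⟩, ?_⟩
      by_contra hk
      rw [Nat.not_odd_iff_even] at hk
      obtain ⟨l, rfl⟩ := hk
      have h3 := hs 2 ⟨l, by ring⟩
      rw [Nat.isUnit_iff] at h3
      omega
    · intro m hm m' hm' h
      rw [mem_coe, mem_filter, Nat.not_odd_iff_even] at hm hm'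
      obtain ⟨-, -, ⟨k, rfl⟩⟩ := hm
      obtain ⟨-, -, ⟨k', rfl⟩⟩ := hm'
      have h' : (k + k) / 2 = (k' + k') / 2 := h
      omega
  have h3 := sqf Z
  have h4 : (((Ioc 0 Z).filter Squarefree).card : ℝ) ≤
      2 * (((Ioc 0 Z).filter (fun m => Squarefree m ∧ Odd m)).card : ℝ) := by
    have : ((Ioc 0 Z).filter Squarefree).card ≤
      2 * ((Ioc 0 Z).filter (fun m => Squarefree m ∧ Odd m)).card := by omega
    exact_mod_cast this
  linarith

/-- Many odd primes. -/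
theorem primes (A : ℝ) : ∃ Q : Finset ℕ, (∀ q ∈ Q, q.Prime ∧ q ≠ 2) ∧
    A ≤ ∑ q ∈ Q, (1 : ℝ) / q := by
  classical
  have h1 := not_summable_one_div_on_primes
  rw [not_summable_iff_tendsto_nat_atTop_of_nonneg (by
    intro n
    exact Set.indicator_nonneg (fun n _ => by positivity) n)] at h1
  obtain ⟨n, hn⟩ := (h1.eventually_ge_atTop (A + 1)).exists
  refine ⟨(range n).filter (fun q => q.Prime ∧ q ≠ 2), fun q hq => (mem_filter.1 hq).2, ?_⟩
  have h2 : ∑ i ∈ range n, Set.indicator {p : ℕ | p.Prime} (fun n : ℕ => (1 : ℝ) / n) i ≤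
      ∑ i ∈ range n, ((if i.Prime ∧ i ≠ 2 then (1 : ℝ) / i else 0) + if i = 2 then 1 else 0) := by
    refine sum_le_sum fun i _ => ?_
    by_cases hi : i.Prime
    · rw [Set.indicator_of_mem (show i ∈ {p : ℕ | p.Prime} from hi)]
      by_cases h2 : i = 2
      · subst h2
        norm_num
      · rw [if_pos ⟨hi, h2⟩, if_neg h2, add_zero]
    · rw [Set.indicator_of_notMem (show i ∉ {p : ℕ | p.Prime} from hi), if_neg (fun h => hi h.1)]
      split_ifs <;> norm_num
  rw [sum_add_distrib, ← sum_filter, sum_ite_eq'] at h2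
  have h3 : (if 2 ∈ range n then (1 : ℝ) else 0) ≤ 1 := by
    split_ifs <;> norm_num
  linarith

theorem fin_OS (j Y : ℕ) : (OS j Y).Finite := by
  refine Set.Finite.subset (Set.Finite.pi' (t := fun _ : Fin j => Set.Iic Y)
    fun _ => Set.finite_Iic Y) ?_
  rintro a ⟨h1, h2⟩ i
  have h3 : a i ∣ Finset.univ.lcm a := Finset.dvd_lcm (mem_univ i)
  have h4 : Finset.univ.lcm a ≠ 0 := by
    rw [Ne, Finset.lcm_eq_zero_iff]
    rintro ⟨i', -, h⟩
    exact (h1 i').1.ne_zero h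
  exact (Nat.le_of_dvd (Nat.pos_of_ne_zero h4) h3).trans h2

end GTlAux

open GTlAux

theorem pGTl : S_GTl := by
  classical
  intro j M hj
  obtain ⟨Q, hQ, hQs⟩ := primes (8 * M + 1)
  refine ⟨Q.card, fun Y hY => ⟨fin_OS j Y, ?_⟩⟩
  let T : ℕ → Finset ℕ := fun q => (Ioc 0 (Y / q)).filter (fun m => Squarefree m ∧ Odd m)
  let F : (Σ _ : ℕ, ℕ) → (Fin j → ℕ) := fun x i =>
    if i.val = 0 then x.2 else if i.val = 1 then x.1 else 1
  have hinj : Set.InjOn F ((Q.sigma T : Finset (Σ _ : ℕ, ℕ)) : Set (Σ _ : ℕ, ℕ)) := by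
    rintro ⟨q, m⟩ - ⟨q', m'⟩ - h
    have h1 := congrFun h ⟨0, by omega⟩
    have h2 := congrFun h ⟨1, by omega⟩
    simp only [F, if_true, one_ne_zero, if_false] at h1 h2
    subst h1
    subst h2
    rfl
  have hsub : (((Q.sigma T).image F : Finset (Fin j → ℕ)) : Set (Fin j → ℕ)) ⊆ OS j Y := by
    intro a ha
    rw [mem_coe, mem_image] at ha
    obtain ⟨⟨q, m⟩, hqm, rfl⟩ := ha
    rw [mem_sigma] at hqm
    obtain ⟨hq, hm⟩ := hqm
    have hqp := (hQ q hq).1
    have hq2 := (hQ q hq).2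
    rw [mem_filter, mem_Ioc] at hm
    obtain ⟨⟨hm0, hmY⟩, hms, hmo⟩ := hm
    refine ⟨fun i => ?_, ?_⟩
    · simp only [F]
      split_ifs
      · exact ⟨hms, hmo⟩
      · exact ⟨hqp.prime.squarefree, hqp.odd_of_ne_two hq2⟩
      · exact ⟨squarefree_one, odd_one⟩
    · have h1 : Finset.univ.lcm (F ⟨q, m⟩) ∣ m * q := by
        refine Finset.lcm_dvd fun i _ => ?_
        simp only [F]
        split_ifs
        · exact Dvd.intro _ rfl
        · exact Dvd.intro_left _ rfl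
        · exact one_dvd _
      refine (Nat.le_of_dvd (Nat.mul_pos hm0 hqp.pos) h1).trans ?_
      exact (Nat.mul_le_mul_right q hmY).trans (Nat.div_mul_le_self Y q)
  have h1 : (Q.sigma T).card ≤ (OS j Y).ncard := by
    rw [← card_image_of_injOn hinj, ← Set.ncard_coe_finset]
    exact Set.ncard_le_ncard hsub (fin_OS j Y)
  have h2 : ∑ q ∈ Q, ((Y : ℝ) * (1 / q) - 1) / 8 ≤ ((Q.sigma T).card : ℝ) := by
    rw [card_sigma]
    push_cast
    refine sum_le_sum fun q hq => ?_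
    have hq0 : (0 : ℝ) < q := by exact_mod_cast (hQ q hq).1.pos
    have h3 := osqf (Y / q)
    have h4 : (Y : ℝ) * (1 / q) - 1 ≤ ((Y / q : ℕ) : ℝ) := by
      have h5 : Y < (Y / q + 1) * q := by
        have := Nat.div_add_mod Y q
        have := Nat.mod_lt Y (hQ q hq).1.pos
        nlinarith
      have h6 : (Y : ℝ) < ((Y / q : ℕ) + 1) * q := by exact_mod_cast h5
      rw [mul_one_div, sub_le_iff_le_add, div_le_iff₀ hq0]
      exact h6.le
    refine le_trans ?_ h3
    linarith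
  rw [← Finset.sum_div, sum_sub_distrib, ← mul_sum, sum_const, nsmul_eq_mul, mul_one] at h2
  have h3 : ((Q.sigma T).card : ℝ) ≤ ((OS j Y).ncard : ℝ) := by exact_mod_cast h1
  have h4 : (Q.card : ℝ) ≤ Y := by exact_mod_cast hY
  have h5 : (Y : ℝ) * (8 * M + 1) ≤ Y * ∑ q ∈ Q, (1 : ℝ) / q :=
    mul_le_mul_of_nonneg_left hQs (by positivity)
  linarith

end Pool.Agent.SMQ
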