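import Pool.Agent.Lib.MP_452a87_nt.SpecG

/-!
# 452a87 G/GAv: the average theorem
-/

set_option autoImplicit false

namespace Pool.Agent.SMQ

open Finset

namespace GAvAux

theorem card_full (j w : ℕ) :
    (univ.filter (fun x : Fin j → Finset (Fin w) => ∀ l, ∃ i, l ∈ x i)).card = (2 ^ j - 1) ^ w := by
  classical
  have h1 : (univ.filter (fun x : Fin j → Finset (Fin w) => ∀ l, ∃ i, l ∈ x i)).card =
      Fintype.card (Fin w → {A : Finset (Fin j) // A.Nonempty}) := by
    rw [← Fintype.card_subtype]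
    refine Fintype.card_congr ?_
    exact
      { toFun := fun x l => ⟨univ.filter (fun i => l ∈ x.1 i), by
          obtain ⟨i, hi⟩ := x.2 l
          exact ⟨i, by simp [hi]⟩⟩
        invFun := fun y => ⟨fun i => univ.filter (fun l => i ∈ (y l).1), by
          intro l
          obtain ⟨i, hi⟩ := (y l).2
          exact ⟨i, by simp [hi]⟩⟩
        left_inv := by
          intro x
          apply Subtype.ext
          funext i
          ext l
          simp
        right_inv := by
          intro y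
          funext l
          apply Subtype.ext
          ext i
          simp }
  have h2 : Fintype.card {A : Finset (Fin j) // A.Nonempty} = 2 ^ j - 1 := by
    have h3 : Fintype.card {A : Finset (Fin j) // A.Nonempty} =
        Fintype.card {A : Finset (Fin j) // A ≠ ∅} :=
      Fintype.card_congr (Equiv.subtypeEquivRight fun A => Finset.nonempty_iff_ne_empty)
    rw [h3, Fintype.card_subtype_compl, Fintype.card_finset, Fintype.card_fin,
      Fintype.card_subtype_eq]
  rw [h1, Fintype.card_fun, Fintype.card_fin, h2]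

theorem lcm_ne {j : ℕ} (a : Fin j → ℕ) (ha : ∀ i, Squarefree (a i)) : univ.lcm a ≠ 0 := by
  rw [Ne, Finset.lcm_eq_zero_iff]
  rintro ⟨i', -, h⟩
  exact (ha i').ne_zero h

theorem fin_OS (j Y : ℕ) : (OS j Y).Finite := by
  refine Set.Finite.subset (Set.Finite.pi' (t := fun _ : Fin j => Set.Iic Y)
    fun _ => Set.finite_Iic Y) ?_
  rintro a ⟨h1, h2⟩ i
  have h3 : a i ∣ Finset.univ.lcm a := Finset.dvd_lcm (mem_univ i)
  exact (Nat.le_of_dvd (Nat.pos_of_ne_zero (lcm_ne a fun i => (h1 i).1)) h3).trans h2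

theorem ex_dvd {j : ℕ} (a : Fin j → ℕ) (q : ℕ) (hq : q.Prime) (h : q ∣ univ.lcm a) :
    ∃ i, q ∣ a i := by
  have h1 : univ.lcm a ∣ ∏ i, a i := Finset.lcm_dvd fun i hi => Finset.dvd_prod_of_mem _ hi
  obtain ⟨i, _, hi⟩ := (hq.prime.dvd_finsetProd_iff _).mp (h.trans h1)
  exact ⟨i, hi⟩

theorem prod_pf {j : ℕ} (a : Fin j → ℕ) (ha : ∀ i, Squarefree (a i)) :
    ∏ q ∈ (univ.lcm a).primeFactors, q = univ.lcm a := by
  refine Nat.dvd_antisymm (Nat.prod_primeFactors_dvd _) ?_
  refine Finset.lcm_dvd fun i _ => ?_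
  have h1 : a i ∣ univ.lcm a := Finset.dvd_lcm (mem_univ i)
  have h2 := Nat.prod_primeFactors_of_squarefree (ha i)
  have h3 : ∏ q ∈ (a i).primeFactors, q ∣ ∏ q ∈ (univ.lcm a).primeFactors, q :=
    Finset.prod_dvd_prod_of_subset _ _ _ (Nat.primeFactors_mono h1 (lcm_ne a ha))
  rw [h2] at h3
  exact h3

theorem sqf_prod {w : ℕ} (p : Fin w → ℕ) (hp : ∀ l, (p l).Prime) (hi : Function.Injective p)
    (U : Finset (Fin w)) : Squarefree (∏ l ∈ U, p l) := by
  refine Finset.squarefree_prod_of_pairwise_isCoprime (fun l _ l' _ hne => ?_)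
    fun l _ => (hp l).prime.squarefree
  show IsRelPrime (p l) (p l')
  rw [← Nat.coprime_iff_isRelPrime]
  exact (Nat.coprime_primes (hp l) (hp l')).mpr fun h => hne (hi h)

theorem dvd_prod_iff {w : ℕ} (p : Fin w → ℕ) (hp : ∀ l, (p l).Prime) (hi : Function.Injective p)
    (U : Finset (Fin w)) (l : Fin w) : p l ∣ ∏ l' ∈ U, p l' ↔ l ∈ U := by
  constructor
  · intro h
    obtain ⟨l', hl', hd⟩ := ((hp l).prime.dvd_finsetProd_iff _).mp h
    have h5 := (Nat.prime_dvd_prime_iff_eq (hp l) (hp l')).mp hd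
    rw [hi h5]
    exact hl'
  · intro h
    exact Finset.dvd_prod_of_mem _ h

/-- The parametrization of a fibre. -/
theorem fib {j : ℕ} (a0 : Fin j → ℕ) (h0 : ∀ i, Squarefree (a0 i) ∧ Odd (a0 i)) :
    ∃ (w : ℕ) (p : Fin w → ℕ), (∀ l, (p l).Prime) ∧ Function.Injective p ∧
      (∀ x : Fin j → Finset (Fin w), (∀ l, ∃ i, l ∈ x i) →
        (∀ i, Squarefree (∏ l ∈ x i, p l) ∧ Odd (∏ l ∈ x i, p l)) ∧
          univ.lcm (fun i => ∏ l ∈ x i, p l) = univ.lcm a0) ∧
      (∀ a : Fin j → ℕ, (∀ i, Squarefree (a i) ∧ Odd (a i)) → univ.lcm a = univ.lcm a0 →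
        ∃ x : Fin j → Finset (Fin w), (∀ l, ∃ i, l ∈ x i) ∧ (fun i => ∏ l ∈ x i, p l) = a) := by
  classical
  set n := univ.lcm a0 with hn
  have hn0 : n ≠ 0 := lcm_ne a0 fun i => (h0 i).1
  let e := n.primeFactors.equivFin
  let p : Fin n.primeFactors.card → ℕ := fun l => (e.symm l).1
  have hpm : ∀ l, p l ∈ n.primeFactors := fun l => (e.symm l).2
  have hp : ∀ l, (p l).Prime := fun l => Nat.prime_of_mem_primeFactors (hpm l)
  have hi : Function.Injective p := fun l l' h => e.symm.injective (Subtype.ext h)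
  have hps : ∀ q ∈ n.primeFactors, ∃ l, p l = q := by
    intro q hq
    refine ⟨e ⟨q, hq⟩, ?_⟩
    show (e.symm (e ⟨q, hq⟩)).1 = q
    rw [Equiv.symm_apply_apply]
  have hpn : ∀ l, p l ∣ n := fun l => Nat.dvd_of_mem_primeFactors (hpm l)
  have hodd : ∀ l, Odd (p l) := by
    intro l
    obtain ⟨i, hd⟩ := ex_dvd a0 (p l) (hp l) (hpn l)
    exact (h0 i).2.of_dvd_nat hd
  have hprod : ∀ U : Finset (Fin n.primeFactors.card), ∏ l ∈ U, p l ∣ n := by
    intro U
    have h1 : ∏ l ∈ U, p l = ∏ q ∈ U.image p, q := by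
      rw [Finset.prod_image fun l _ l' _ h => hi h]
    rw [h1]
    refine dvd_trans ?_ (dvd_of_eq (prod_pf a0 fun i => (h0 i).1))
    refine Finset.prod_dvd_prod_of_subset _ _ _ ?_
    intro q hq
    obtain ⟨l, -, rfl⟩ := Finset.mem_image.1 hq
    exact hpm l
  refine ⟨n.primeFactors.card, p, hp, hi, ?_, ?_⟩
  · intro x hx
    refine ⟨fun i => ⟨sqf_prod p hp hi _, ?_⟩, ?_⟩
    · rcases Nat.even_or_odd (∏ l ∈ x i, p l) with h | h
      · obtain ⟨l, -, hl⟩ := (Nat.prime_two.prime.dvd_finsetProd_iff _).mp h.two_dvd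
        exact absurd (even_iff_two_dvd.2 hl) (Nat.not_even_iff_odd.2 (hodd l))
      · exact h
    · refine Nat.dvd_antisymm (Finset.lcm_dvd fun i _ => hprod (x i)) ?_
      have h1 := prod_pf a0 fun i => (h0 i).1
      rw [← hn] at h1
      refine dvd_trans (dvd_of_eq h1.symm) ?_
      refine Finset.prod_primes_dvd _ (fun q hq => (Nat.prime_of_mem_primeFactors hq).prime) ?_
      intro q hq
      obtain ⟨l, rfl⟩ := hps q hq
      obtain ⟨i, hli⟩ := hx l
      exact (Finset.dvd_prod_of_mem p hli).trans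
        (Finset.dvd_lcm (f := fun i => ∏ l ∈ x i, p l) (mem_univ i))
  · intro a ha hlcm
    refine ⟨fun i => univ.filter (fun l => p l ∣ a i), ?_, ?_⟩
    · intro l
      have h1 : p l ∣ univ.lcm a := by
        rw [hlcm]
        exact hpn l
      obtain ⟨i, hd⟩ := ex_dvd a (p l) (hp l) h1
      exact ⟨i, by simp [hd]⟩
    · funext i
      have h1 : ∏ l ∈ univ.filter (fun l => p l ∣ a i), p l =
          ∏ q ∈ (univ.filter (fun l => p l ∣ a i)).image p, q := by
        rw [Finset.prod_image fun l _ l' _ h => hi h]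
      have h2 : (univ.filter (fun l => p l ∣ a i)).image p = (a i).primeFactors := by
        ext q
        rw [mem_image, Nat.mem_primeFactors]
        constructor
        · rintro ⟨l, hl, rfl⟩
          exact ⟨hp l, (mem_filter.1 hl).2, (ha i).1.ne_zero⟩
        · rintro ⟨h3, h4, -⟩
          have h5 : a i ∣ n := by
            rw [← hlcm]
            exact Finset.dvd_lcm (mem_univ i)
          obtain ⟨l, rfl⟩ := hps q (Nat.mem_primeFactors.2 ⟨h3, h4.trans h5, hn0⟩)
          exact ⟨l, mem_filter.2 ⟨mem_univ _, h4⟩, rfl⟩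
      show ∏ l ∈ univ.filter (fun l => p l ∣ a i), p l = a i
      rw [h1, h2, Nat.prod_primeFactors_of_squarefree (ha i).1]

theorem ncard_flt {T : Type} [Fintype T] (P : T → Prop) [DecidablePred P] :
    Set.ncard {x | P x} = (Finset.univ.filter P).card := by
  rw [← Set.ncard_coe_finset]
  congr 1
  ext x
  simp

end GAvAux

open GAvAux

theorem pGAv (hFb : S_GFb) (hTl : S_GTl) : S_GAv := by
  classical
  intro j ε hj hε
  obtain ⟨w0, hw0⟩ := hFb j (ε / 2) hj (by positivity)
  obtain ⟨Y0, hY0⟩ := hTl j (2 * (2 ^ j) ^ w0 / ε) hj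
  refine ⟨Y0, fun Y hY e lam he hlam => ?_⟩
  obtain ⟨hfin, hbig⟩ := hY0 Y hY
  set F : Finset (Fin j → ℕ) := hfin.toFinset with hF
  have hmF : ∀ a, a ∈ F ↔ a ∈ OS j Y := fun a => by rw [hF, Set.Finite.mem_toFinset]
  have hcF : (OS j Y).ncard = F.card := by rw [Set.ncard_eq_toFinset_card _ hfin]
  set B : Finset (Fin j → ℕ) := F.filter (fun a => BadN lam (fun i => e i * a i)) with hB
  have hcB : Set.ncard {a : Fin j → ℕ | a ∈ OS j Y ∧ BadN lam (fun i => e i * a i)} = B.card := by
    rw [← Set.ncard_coe_finset]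
    congr 1
    ext a
    rw [hB, Finset.coe_filter]
    simp only [Set.mem_ofPred_eq, hmF]
  rw [hcB, hcF]
  rw [hcF] at hbig
  have hmaps : ∀ a ∈ F, univ.lcm a ∈ Icc 1 Y := by
    intro a ha
    have h1 := (hmF a).1 ha
    rw [mem_Icc]
    exact ⟨Nat.one_le_iff_ne_zero.2 (lcm_ne a fun i => (h1.1 i).1), h1.2⟩
  have hsB : B.card = ∑ n ∈ Icc 1 Y, (B.filter (fun a => univ.lcm a = n)).card :=
    Finset.card_eq_sum_card_fiberwise fun a ha => hmaps a (mem_filter.1 ha).1
  have hsF : F.card = ∑ n ∈ Icc 1 Y, (F.filter (fun a => univ.lcm a = n)).card :=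
    Finset.card_eq_sum_card_fiberwise fun a ha => hmaps a ha
  have key : ∀ n ∈ Icc 1 Y, ((B.filter (fun a => univ.lcm a = n)).card : ℝ) ≤
      ε / 2 * ((F.filter (fun a => univ.lcm a = n)).card : ℝ) + (2 ^ j) ^ w0 := by
    intro n hn
    rw [mem_Icc] at hn
    have hBF : (B.filter (fun a => univ.lcm a = n)).card ≤ (F.filter (fun a => univ.lcm a = n)).card :=
      card_le_card (filter_subset_filter _ (filter_subset _ _))
    rcases (F.filter (fun a => univ.lcm a = n)).eq_empty_or_nonempty with hem | ⟨a0, ha0⟩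
    · rw [hem, card_empty] at hBF
      have h1 : (B.filter (fun a => univ.lcm a = n)).card = 0 := by omega
      rw [h1, Nat.cast_zero]
      positivity
    · rw [mem_filter, hmF] at ha0
      obtain ⟨ha0, rfl⟩ := ha0
      obtain ⟨w, p, hp, hi, hx1, hx2⟩ := fib a0 ha0.1
      let ψ : (Fin j → Finset (Fin w)) → (Fin j → ℕ) := fun x i => ∏ l ∈ x i, p l
      have hψ : Function.Injective ψ := by
        intro x x' h
        funext i
        ext l
        rw [← dvd_prod_iff p hp hi (x i) l, ← dvd_prod_iff p hp hi (x' i) l]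
        have h1 : ∏ l ∈ x i, p l = ∏ l ∈ x' i, p l := congrFun h i
        rw [h1]
      have hcard : (F.filter (fun a => univ.lcm a = univ.lcm a0)).card = (2 ^ j - 1) ^ w := by
        rw [← card_full j w, ← Finset.card_image_of_injective _ hψ]
        congr 1
        ext a
        rw [mem_filter, hmF, mem_image]
        constructor
        · rintro ⟨h1, h2⟩
          obtain ⟨x, hx, hxa⟩ := hx2 a h1.1 h2
          exact ⟨x, by simpa using hx, hxa⟩
        · rintro ⟨x, hx, rfl⟩
          have h1 := hx1 x (mem_filter.1 hx).2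
          refine ⟨⟨h1.1, ?_⟩, h1.2⟩
          show univ.lcm (fun i => ∏ l ∈ x i, p l) ≤ Y
          rw [h1.2]
          exact hn.2
      have h2j : 1 ≤ 2 ^ j := Nat.one_le_two_pow
      by_cases hw : w0 ≤ w
      · have h1 := hw0 w hw p e lam hp hi he hlam
        rw [ncard_flt] at h1
        have h2 : (B.filter (fun a => univ.lcm a = univ.lcm a0)).card ≤
            (univ.filter (fun x : Fin j → Finset (Fin w) => (∀ l, ∃ i, l ∈ x i) ∧
              BadN lam (fun i => e i * ∏ l ∈ x i, p l))).card := by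
          rw [← Finset.card_image_of_injective _ hψ]
          refine card_le_card fun a ha => ?_
          rw [mem_filter, hB, mem_filter, hmF] at ha
          obtain ⟨⟨h3, h4⟩, h5⟩ := ha
          obtain ⟨x, hx, rfl⟩ := hx2 a h3.1 h5
          rw [mem_image]
          exact ⟨x, mem_filter.2 ⟨mem_univ _, hx, h4⟩, rfl⟩
        have h3 : ((F.filter (fun a => univ.lcm a = univ.lcm a0)).card : ℝ) = (2 ^ j - 1) ^ w := by
          rw [hcard, Nat.cast_pow, Nat.cast_sub h2j]
          push_cast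
          rfl
        have h4 : ((B.filter (fun a => univ.lcm a = univ.lcm a0)).card : ℝ) ≤
            ((univ.filter (fun x : Fin j → Finset (Fin w) => (∀ l, ∃ i, l ∈ x i) ∧
              BadN lam (fun i => e i * ∏ l ∈ x i, p l))).card : ℝ) := by exact_mod_cast h2
        have h5 : (0 : ℝ) ≤ (2 ^ j) ^ w0 := by positivity
        rw [h3]
        linarith
      · push Not at hw
        have h1 : (B.filter (fun a => univ.lcm a = univ.lcm a0)).card ≤ (2 ^ j) ^ w0 := by
          refine hBF.trans ?_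
          rw [hcard]
          exact (Nat.pow_le_pow_left (Nat.sub_le _ _) w).trans
            (Nat.pow_le_pow_right (by positivity) hw.le)
        have h2 : ((B.filter (fun a => univ.lcm a = univ.lcm a0)).card : ℝ) ≤ (2 ^ j) ^ w0 := by
          exact_mod_cast h1
        have h3 : (0 : ℝ) ≤ ε / 2 * ((F.filter (fun a => univ.lcm a = univ.lcm a0)).card : ℝ) := by
          positivity
        linarith
  have h1 : (B.card : ℝ) ≤ ε / 2 * (F.card : ℝ) + Y * (2 ^ j) ^ w0 := by
    rw [hsB, hsF]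
    push_cast
    calc ∑ n ∈ Icc 1 Y, ((B.filter (fun a => univ.lcm a = n)).card : ℝ) ≤
        ∑ n ∈ Icc 1 Y, (ε / 2 * ((F.filter (fun a => univ.lcm a = n)).card : ℝ) + (2 ^ j) ^ w0) :=
          sum_le_sum key
      _ = ε / 2 * ∑ n ∈ Icc 1 Y, ((F.filter (fun a => univ.lcm a = n)).card : ℝ) +
          Y * (2 ^ j) ^ w0 := by
          rw [sum_add_distrib, ← mul_sum, sum_const, Nat.card_Icc, nsmul_eq_mul]
          norm_num
  have h2 : (Y : ℝ) * (2 ^ j) ^ w0 ≤ ε / 2 * (F.card : ℝ) := by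
    have h3 : ε / 2 * (2 * (2 ^ j) ^ w0 / ε * Y) = Y * (2 ^ j) ^ w0 := by
      field_simp
    rw [← h3]
    exact mul_le_mul_of_nonneg_left hbig (by positivity)
  linarith

end Pool.Agent.SMQ
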