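import Pool.Agent.Lib.MP_452a87_nt.SpecG

set_option autoImplicit false

namespace Pool.Agent.SMQ

open NumberField

theorem pGD0 : S_GD0 := by
  intro K _ _ κ _ _ b hb
  classical
  set e : Module.Free.ChooseBasisIndex ℤ (𝓞 K) ≃ κ := (integralBasis K).indexEquiv b with he
  set ω : Module.Basis κ ℚ K := (integralBasis K).reindex e with hω
  have hd : Algebra.discr ℚ ω = (NumberField.discr K : ℚ) := by
    rw [coe_discr, hω]
    have := Algebra.discr_reindex ℚ (integralBasis K) e
    rw [← this]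
    congr 1
    ext i
    simp
  have hint : ∀ l i, ∃ z : ℤ, ω.repr (b i) l = (z : ℚ) := by
    intro l i
    refine ⟨(RingOfIntegers.basis K).repr ⟨b i, hb i⟩ (e.symm l), ?_⟩
    rw [hω, Module.Basis.repr_reindex_apply]
    have := integralBasis_repr_apply K ⟨b i, hb i⟩ (e.symm l)
    simpa using this
  choose Q hQ using hint
  refine ⟨(Matrix.of Q).det, ?_⟩
  have h1 : (b : κ → K) = Matrix.vecMul (ω : κ → K) ((ω.toMatrix b).map (algebraMap ℚ K)) := by
    rw [Module.Basis.toMatrix_map_vecMul]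
  have h2 : (ω.toMatrix b) = (Matrix.of Q).map (Int.castRingHom ℚ) := by
    ext l i
    rw [Module.Basis.toMatrix_apply, hQ]
    rfl
  have h3 : (ω.toMatrix b).det = (((Matrix.of Q).det : ℤ) : ℚ) := by
    rw [h2]
    exact (RingHom.map_det (Int.castRingHom ℚ) (Matrix.of Q)).symm
  calc Algebra.discr ℚ (b : κ → K) = Algebra.discr ℚ (Matrix.vecMul (ω : κ → K) ((ω.toMatrix b).map (algebraMap ℚ K))) := by
        rw [← h1]
    _ = (ω.toMatrix b).det ^ 2 * Algebra.discr ℚ ω := Algebra.discr_of_matrix_vecMul _ _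
    _ = _ := by rw [h3, hd]

end Pool.Agent.SMQ
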